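import Mathlib
import Pool.Agent.Lib.H41S.D

/-! # H35AX: ray class characters with a given component at one prime v and ramified otherwise only at good primes: definitions -/

open NumberField IsDedekindDomain

namespace H35AX

open H55R (Pl pv)
open H41S (CH)

/-- Separation of the p-th powers by the primes with the property G and norm 1 modulo p^k. -/
def Sep {L : Type} [Field L] [NumberField L] (p k : ℕ) (G : Pl L → Prop) : Prop :=
  ∀ S : Set (Pl L), S.Finite → ∀ y : 𝓞 L, y ≠ 0 → (¬ ∃ z : 𝓞 L, z ^ p = y) →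
    ∃ q : Pl L, q ∉ S ∧ G q ∧ y ∉ q.asIdeal ∧ p ^ k ∣ Ideal.absNorm q.asIdeal - 1 ∧ ¬ ∃ z : 𝓞 L, z ^ p - y ∈ q.asIdeal

/-- A character of the units modulo v of order dividing N. -/
structure Loc {L : Type} [Field L] [NumberField L] (v : Pl L) (N : ℕ) (κ : 𝓞 L → ℂˣ) : Prop where
  mul : ∀ x y, x ∉ v.asIdeal → y ∉ v.asIdeal → κ (x * y) = κ x * κ y
  per : ∀ x y, x ∉ v.asIdeal → x - y ∈ v.asIdeal → κ x = κ y
  pow : ∀ x, x ∉ v.asIdeal → κ x ^ N = 1

end H35AX
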