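import Mathlib
import Pool.Agent.Lib.H35AX.D
import Pool.Agent.Lib.H2S.K4

/-! # H35AX, A1: extension of characters given by their graphs; finiteness -/

open NumberField IsDedekindDomain
open scoped nonZeroDivisors

namespace H35AX

open H55R (Pl pv pv_one pv_mul pv_prime)

/-- A subgroup of A × ℂˣ which is the graph of a character on a subgroup is contained in the graph of a character of A. -/
theorem ext_graph {A : Type*} [CommGroup A] (Γ : Subgroup (A × ℂˣ)) (h : ∀ c : ℂˣ, ((1 : A), c) ∈ Γ → c = 1) :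
    ∃ Ψ : A →* ℂˣ, ∀ x ∈ Γ, Ψ x.1 = x.2 := by
  let f : Γ →* A := (MonoidHom.fst A ℂˣ).comp Γ.subtype
  have hf : Function.Injective f := by
    rw [injective_iff_map_eq_one]
    rintro ⟨⟨a, c⟩, hx⟩ h1
    have h2 : a = 1 := h1
    subst h2
    have h3 := h c hx
    subst h3
    rfl
  let e := MonoidHom.ofInjective hf
  obtain ⟨g, hg⟩ := Pool.Agent.H2S.extend_subgroup f.range (((MonoidHom.snd A ℂˣ).comp Γ.subtype).comp e.symm.toMonoidHom)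
  refine ⟨g, fun x hx => ?_⟩
  have h1 := hg (e ⟨x, hx⟩)
  have h2 : ((e ⟨x, hx⟩ : f.range) : A) = x.1 := rfl
  rw [h2] at h1
  rw [h1]
  show (e.symm (e ⟨x, hx⟩) : A × ℂˣ).2 = x.2
  rw [e.symm_apply_apply]

/-- The function pv for a function which is the restriction of a multiplicative function. -/
theorem pv_of {L : Type} [Field L] [NumberField L] (Φ : Ideal (𝓞 L) → ℂˣ) (h1 : Φ 1 = 1)
    (hm : ∀ a b : Ideal (𝓞 L), a ≠ ⊥ → b ≠ ⊥ → Φ (a * b) = Φ a * Φ b) (a : Ideal (𝓞 L)) (ha : a ≠ ⊥) :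
    pv (fun w : Pl L => Φ w.asIdeal) a = Φ a := by
  induction a using UniqueFactorizationMonoid.induction_on_prime with
  | h₁ => exact absurd rfl ha
  | h₂ a hu =>
    have h2 : a = 1 := by
      rw [Ideal.isUnit_iff] at hu
      rw [hu, Ideal.one_eq_top]
    rw [h2, pv_one, h1]
  | h₃ a P ha0 hP ih =>
    have hP0 : P ≠ ⊥ := hP.ne_zero
    rw [pv_mul _ hP0 ha0, hm P a hP0 ha0, ih ha0]
    congr 1
    exact pv_prime (fun w : Pl L => Φ w.asIdeal) ⟨P, Ideal.isPrime_of_prime hP, hP0⟩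

section fin

variable {L : Type} [Field L] [NumberField L]

/-- Representatives of the units modulo p-th powers. -/
theorem units_rep (p : ℕ) (hp : 0 < p) : ∃ U : Finset (𝓞 L)ˣ, ∀ u : (𝓞 L)ˣ, ∃ u₀ ∈ U, ∃ w : (𝓞 L)ˣ, u = u₀ * w ^ p := by
  classical
  have hfin : Finite ((𝓞 L)ˣ ⧸ (powMonoidHom p : (𝓞 L)ˣ →* (𝓞 L)ˣ).range) := by
    have h0 : Group.FG (𝓞 L)ˣ := Group.fg_iff_monoid_fg.2 inferInstance
    have h1 : Group.FG ((𝓞 L)ˣ ⧸ (powMonoidHom p : (𝓞 L)ˣ →* (𝓞 L)ˣ).range) := inferInstance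
    refine CommGroup.finite_of_fg_torsion _ fun x => ?_
    obtain ⟨u, rfl⟩ := QuotientGroup.mk_surjective x
    rw [isOfFinOrder_iff_pow_eq_one]
    refine ⟨p, hp, ?_⟩
    rw [← QuotientGroup.mk_pow, QuotientGroup.eq_one_iff]
    exact ⟨u, rfl⟩
  have hft := Fintype.ofFinite ((𝓞 L)ˣ ⧸ (powMonoidHom p : (𝓞 L)ˣ →* (𝓞 L)ˣ).range)
  refine ⟨Finset.univ.image fun x : (𝓞 L)ˣ ⧸ (powMonoidHom p : (𝓞 L)ˣ →* (𝓞 L)ˣ).range => x.out, fun u => ?_⟩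
  refine ⟨(QuotientGroup.mk u : (𝓞 L)ˣ ⧸ (powMonoidHom p : (𝓞 L)ˣ →* (𝓞 L)ˣ).range).out,
    Finset.mem_image_of_mem _ (Finset.mem_univ _), ?_⟩
  have h1 : (QuotientGroup.mk (QuotientGroup.mk u : (𝓞 L)ˣ ⧸ (powMonoidHom p : (𝓞 L)ˣ →* (𝓞 L)ˣ).range).out :
      (𝓞 L)ˣ ⧸ (powMonoidHom p : (𝓞 L)ˣ →* (𝓞 L)ˣ).range) = QuotientGroup.mk u := QuotientGroup.out_eq' _
  obtain ⟨w, hw⟩ := QuotientGroup.eq.1 h1
  refine ⟨w, ?_⟩
  have h2 : w ^ p = (QuotientGroup.mk u : (𝓞 L)ˣ ⧸ (powMonoidHom p : (𝓞 L)ˣ →* (𝓞 L)ˣ).range).out⁻¹ * u := hw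
  rw [h2, mul_inv_cancel_left]

/-- Finitely many elements represent the elements whose ideals are p-th powers. -/
theorem fin_rep (p : ℕ) (hp : 0 < p) : ∃ Y : Finset (𝓞 L), ∀ z : 𝓞 L, z ≠ 0 → (∃ c : Ideal (𝓞 L), Ideal.span {z} = c ^ p) →
    ∃ y ∈ Y, ∃ s t : 𝓞 L, s ≠ 0 ∧ t ≠ 0 ∧ z * t ^ p = y * s ^ p := by
  classical
  obtain ⟨U, hU⟩ := units_rep (L := L) p hp
  have key : ∀ κ : ClassGroup (𝓞 L), ∃ z₀ : 𝓞 L, ∀ (z : 𝓞 L) (c : (Ideal (𝓞 L))⁰), z ≠ 0 → Ideal.span {z} = (c : Ideal (𝓞 L)) ^ p →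
      ClassGroup.mk0 c = κ → ∃ c₀ : (Ideal (𝓞 L))⁰, z₀ ≠ 0 ∧ Ideal.span {z₀} = (c₀ : Ideal (𝓞 L)) ^ p ∧ ClassGroup.mk0 c₀ = κ := by
    intro κ
    by_cases h : ∃ (z : 𝓞 L) (c : (Ideal (𝓞 L))⁰), z ≠ 0 ∧ Ideal.span {z} = (c : Ideal (𝓞 L)) ^ p ∧ ClassGroup.mk0 c = κ
    · obtain ⟨z, c, h1, h2, h3⟩ := h
      exact ⟨z, fun _ _ _ _ _ => ⟨c, h1, h2, h3⟩⟩
    · exact ⟨0, fun z c h1 h2 h3 => absurd ⟨z, c, h1, h2, h3⟩ h⟩
  choose z₀ hz₀ using key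
  refine ⟨(Finset.univ ×ˢ U).image fun x : ClassGroup (𝓞 L) × (𝓞 L)ˣ => (x.2 : 𝓞 L) * z₀ x.1, fun z hz hc => ?_⟩
  obtain ⟨c, hc⟩ := hc
  have hc0 : c ≠ ⊥ := by
    rintro rfl
    rw [← Ideal.zero_eq_bot, zero_pow hp.ne', Ideal.zero_eq_bot, Ideal.span_singleton_eq_bot] at hc
    exact hz hc
  obtain ⟨c₀, h1, h2, h3⟩ := hz₀ (ClassGroup.mk0 ⟨c, mem_nonZeroDivisors_of_ne_zero hc0⟩) z ⟨c, mem_nonZeroDivisors_of_ne_zero hc0⟩ hz hc rfl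
  obtain ⟨a, b, ha, hb, hab⟩ := ClassGroup.mk0_eq_mk0_iff.1 h3
  -- (a) c₀ = (b) c
  have hab' : Ideal.span {a} * (c₀ : Ideal (𝓞 L)) = Ideal.span {b} * c := hab
  have h4 : Ideal.span {a ^ p * z₀ (ClassGroup.mk0 ⟨c, mem_nonZeroDivisors_of_ne_zero hc0⟩)} = Ideal.span {b ^ p * z} := by
    rw [← Ideal.span_singleton_mul_span_singleton, ← Ideal.span_singleton_mul_span_singleton, ← Ideal.span_singleton_pow,
      ← Ideal.span_singleton_pow, hc, h2, ← mul_pow, ← mul_pow, hab']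
  rw [Ideal.span_singleton_eq_span_singleton] at h4
  obtain ⟨u, hu⟩ := h4
  obtain ⟨u₀, hu₀, w, hw⟩ := hU u
  refine ⟨(u₀ : 𝓞 L) * z₀ (ClassGroup.mk0 ⟨c, mem_nonZeroDivisors_of_ne_zero hc0⟩), ?_, a * w, b, ?_, hb, ?_⟩
  · exact Finset.mem_image.2 ⟨(_, u₀), Finset.mem_product.2 ⟨Finset.mem_univ _, hu₀⟩, rfl⟩
  · exact mul_ne_zero ha w.ne_zero
  · rw [hw, Units.val_mul, Units.val_pow_eq_pow_val] at hu
    rw [mul_comm z, ← hu, mul_pow]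
    ring

end fin

end H35AX
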