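import Mathlib
import Pool.Agent.Lib.H35AX.A1

/-! # H35AX, A2: separation of the elements whose ideals are p^k-th powers -/

open NumberField IsDedekindDomain
open scoped nonZeroDivisors

namespace H35AX

open H55R (Pl)

/-- In a finite field with q elements, q = 1 modulo p^k, the elements killed by p^(k-1) are p-th powers. -/
theorem cyc_pow {k : Type*} [Field k] [Finite k] {p j : ℕ} (hp : 0 < p) (h : p ^ (j + 1) ∣ Nat.card k - 1) {g : k} (hg : g ≠ 0)
    (h1 : g ^ p ^ j = 1) : ∃ z : k, z ^ p = g := by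
  classical
  have hft := Fintype.ofFinite k
  obtain ⟨γ, hγ⟩ := IsCyclic.exists_generator (α := kˣ)
  have hcard : orderOf γ = Nat.card k - 1 := by
    rw [orderOf_eq_card_of_forall_mem_zpowers hγ, Nat.card_units]
  obtain ⟨i, hi⟩ := (mem_powers_iff_mem_zpowers (x := γ)).2 (hγ (Units.mk0 g hg))
  have h2 : γ ^ (i * p ^ j) = 1 := by
    have h3 : γ ^ i = Units.mk0 g hg := hi
    rw [pow_mul, h3]
    apply Units.ext
    rw [Units.val_pow_eq_pow_val, Units.val_mk0, h1, Units.val_one]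
  have h3 : p ^ (j + 1) ∣ i * p ^ j := (h.trans (hcard ▸ dvd_rfl)).trans (orderOf_dvd_of_pow_eq_one h2)
  rw [pow_succ'] at h3
  obtain ⟨c, rfl⟩ := Nat.dvd_of_mul_dvd_mul_right (pow_pos hp j) h3
  refine ⟨((γ ^ c : kˣ) : k), ?_⟩
  have h4 : γ ^ (p * c) = Units.mk0 g hg := hi
  rw [← Units.val_pow_eq_pow_val, ← pow_mul, mul_comm, h4, Units.val_mk0]

variable {L : Type} [Field L] [NumberField L]

/-- Equal powers. -/
theorem pow_inj {p : ℕ} (hp : 0 < p) (hμ : ∀ z : 𝓞 L, z ^ p = 1 → z = 1) {a b : 𝓞 L} (h : a ^ p = b ^ p) : a = b := by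
  by_cases hb : b = 0
  · rw [hb, zero_pow hp.ne'] at h
    rw [hb]
    exact (pow_eq_zero_iff hp.ne').1 h
  have hb' : (b : L) ≠ 0 := by
    intro h1
    exact hb (RingOfIntegers.ext (by rw [h1]; rfl))
  have h1 : ((a : L) / b) ^ p = 1 := by
    rw [div_pow, div_eq_one_iff_eq (pow_ne_zero _ hb')]
    have h2 := congrArg (fun x : 𝓞 L => (x : L)) h
    simpa using h2
  have h2 : IsIntegral ℤ ((a : L) / b) := by
    refine IsIntegral.of_pow hp ?_
    rw [h1]
    exact isIntegral_one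
  have h3 := hμ ⟨(a : L) / b, h2⟩ (RingOfIntegers.ext (by
    show algebraMap (𝓞 L) L (⟨(a : L) / b, h2⟩ ^ p) = algebraMap (𝓞 L) L 1
    rw [map_pow, map_one]
    exact h1))
  have h4 : (a : L) / b = 1 := congrArg (fun x : 𝓞 L => (x : L)) h3
  rw [div_eq_one_iff_eq hb'] at h4
  exact RingOfIntegers.ext h4

/-- A quotient whose p-th power is integral is integral. -/
theorem div_root {p : ℕ} (hp : 0 < p) {z s t : 𝓞 L} (ht : t ≠ 0) (h : z * t ^ p = s ^ p) : ∃ w : 𝓞 L, w ^ p = z := by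
  have ht' : (t : L) ≠ 0 := by
    intro h1
    exact ht (RingOfIntegers.ext (by rw [h1]; rfl))
  have h1 : ((s : L) / t) ^ p = z := by
    rw [div_pow, div_eq_iff (pow_ne_zero _ ht')]
    have h2 := congrArg (fun x : 𝓞 L => (x : L)) h
    simpa using h2.symm
  have h2 : IsIntegral ℤ ((s : L) / t) := by
    refine IsIntegral.of_pow hp ?_
    rw [h1]
    exact RingOfIntegers.isIntegral_coe z
  refine ⟨⟨(s : L) / t, h2⟩, RingOfIntegers.ext ?_⟩
  show algebraMap (𝓞 L) L (⟨(s : L) / t, h2⟩ ^ p) = algebraMap (𝓞 L) L z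
  rw [map_pow]
  exact h1

/-- Scaling at a prime. -/
theorem scale {p : ℕ} (hp : 0 < p) (q : Pl L) {z y s t : 𝓞 L} (hz : z ∉ q.asIdeal) (hy : y ∉ q.asIdeal) (ht : t ≠ 0) (h : z * t ^ p = y * s ^ p) :
    ∃ s' t' : 𝓞 L, s' ∉ q.asIdeal ∧ t' ∉ q.asIdeal ∧ z * t' ^ p = y * s' ^ p := by
  classical
  have hqp : Prime q.asIdeal := q.prime
  have ht0 : Ideal.span {t} ≠ 0 := by
    rw [Ne, Ideal.zero_eq_bot, Ideal.span_singleton_eq_bot]
    exact ht
  obtain ⟨n, J, hJ, hJt⟩ := WfDvdMonoid.max_power_factor ht0 hqp.irreducible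
  -- (t) = q^n J
  obtain ⟨j, hj, hjq⟩ : ∃ j ∈ J, j ∉ q.asIdeal := by
    by_contra hc
    push Not at hc
    exact hJ (Ideal.dvd_iff_le.2 hc)
  -- q^n contains s
  have h1 : q.asIdeal ^ (n * p) ∣ Ideal.span {y} * Ideal.span {s} ^ p := by
    rw [Ideal.span_singleton_pow, Ideal.span_singleton_mul_span_singleton, ← h, ← Ideal.span_singleton_mul_span_singleton,
      ← Ideal.span_singleton_pow, hJt, mul_pow, ← pow_mul]
    exact (dvd_mul_right _ _).mul_left _
  have h2 : q.asIdeal ^ (n * p) ∣ Ideal.span {s} ^ p := by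
    refine Prime.pow_dvd_of_dvd_mul_left hqp _ ?_ h1
    intro h3
    rw [Ideal.dvd_span_singleton] at h3
    exact hy h3
  have h3 : q.asIdeal ^ n ∣ Ideal.span {s} := by
    rw [pow_mul] at h2
    exact (UniqueFactorizationMonoid.pow_dvd_pow_iff_dvd hp.ne').1 h2
  have h4 : s * j ∈ Ideal.span {t} := by
    rw [hJt]
    exact Ideal.mul_mem_mul (Ideal.dvd_span_singleton.1 h3) hj
  obtain ⟨s', hs'⟩ := Ideal.mem_span_singleton'.1 h4
  -- s' t = s j
  have h5 : z * j ^ p = y * s' ^ p := by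
    have h6 : (z * j ^ p) * t ^ p = (y * s' ^ p) * t ^ p := by
      calc (z * j ^ p) * t ^ p = (z * t ^ p) * j ^ p := by ring
        _ = y * (s * j) ^ p := by rw [h]; ring
        _ = (y * s' ^ p) * t ^ p := by rw [← hs']; ring
    exact mul_right_cancel₀ (pow_ne_zero p ht) h6
  refine ⟨s', j, fun h6 => ?_, hjq, h5⟩
  have h7 : z * j ^ p ∈ q.asIdeal := by
    rw [h5]
    exact Ideal.mul_mem_left _ _ (Ideal.pow_mem_of_mem _ h6 p hp)
  rcases q.isPrime.mem_or_mem h7 with h8 | h8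
  · exact hz h8
  · exact hjq (q.isPrime.mem_of_pow_mem p h8)

end H35AX
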