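import Mathlib
import Pool.Agent.Lib.H35AX.A2

/-! # H35AX, A3: separation of the elements whose ideals are p^k-th powers -/

open NumberField IsDedekindDomain
open scoped nonZeroDivisors

namespace H35AX

open H55R (Pl)

variable {L : Type} [Field L] [NumberField L]

theorem ideal_pow_inj {a b : Ideal (𝓞 L)} {n : ℕ} (hn : n ≠ 0) (h : a ^ n = b ^ n) : a = b :=
  le_antisymm (Ideal.le_of_dvd ((UniqueFactorizationMonoid.pow_dvd_pow_iff_dvd hn).1 (dvd_of_eq h.symm)))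
    (Ideal.le_of_dvd ((UniqueFactorizationMonoid.pow_dvd_pow_iff_dvd hn).1 (dvd_of_eq h)))

/-- The step modulo q. -/
theorem step_q {p k : ℕ} (hp : 0 < p) (q : Pl L) (hq : p ^ (k + 1) ∣ Ideal.absNorm q.asIdeal - 1) {x z y s t w : 𝓞 L} {j : ℕ}
    (hx : x ∉ q.asIdeal) (hzx : z ^ p ^ k = x ^ p ^ j) (hy : y ∉ q.asIdeal) (ht : t ≠ 0) (h : z * t ^ p = y * s ^ p)
    (hw : w ^ p ^ (k + 1) - x ∈ q.asIdeal) : ∃ u : 𝓞 L, u ^ p - y ∈ q.asIdeal := by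
  classical
  have hmax : q.asIdeal.IsMaximal := q.isMaximal
  let _ : Field (𝓞 L ⧸ q.asIdeal) := Ideal.Quotient.field _
  have hfin : Finite (𝓞 L ⧸ q.asIdeal) := Ideal.finiteQuotientOfFreeOfNeBot _ q.ne_bot
  have hz : z ∉ q.asIdeal := by
    intro h1
    have h2 : x ^ p ^ j ∈ q.asIdeal := by
      rw [← hzx]
      exact Ideal.pow_mem_of_mem _ h1 _ (pow_pos hp k)
    exact hx (q.isPrime.mem_of_pow_mem _ h2)
  obtain ⟨s', t', hs', ht', h'⟩ := scale hp q hz hy ht h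
  let π := Ideal.Quotient.mk q.asIdeal
  have h0 : ∀ a : 𝓞 L, a ∉ q.asIdeal → π a ≠ 0 := fun a ha h1 => ha (Ideal.Quotient.eq_zero_iff_mem.1 h1)
  have hwx : π w ^ p ^ (k + 1) = π x := by
    rw [← map_pow]
    exact Ideal.Quotient.eq.2 hw
  have hw0 : π w ≠ 0 := by
    intro h1
    rw [h1, zero_pow (pow_pos hp _).ne'] at hwx
    exact h0 x hx hwx.symm
  have hg : (π z / (π w ^ p ^ j) ^ p) ^ p ^ k = 1 := by
    rw [div_pow, div_eq_one_iff_eq (pow_ne_zero _ (pow_ne_zero _ (pow_ne_zero _ hw0))), ← map_pow, hzx, map_pow, ← hwx, ← pow_mul,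
      ← pow_mul, ← pow_mul]
    congr 1
    ring
  obtain ⟨r, hr⟩ := cyc_pow (k := 𝓞 L ⧸ q.asIdeal) (p := p) (j := k) hp hq
    (div_ne_zero (h0 z hz) (pow_ne_zero _ (pow_ne_zero _ hw0))) hg
  obtain ⟨u, hu⟩ := Ideal.Quotient.mk_surjective (r * π w ^ p ^ j * π t' / π s')
  refine ⟨u, Ideal.Quotient.eq.1 ?_⟩
  have h3 : π z * π t' ^ p = π y * π s' ^ p := by
    rw [← map_pow, ← map_pow, ← map_mul, ← map_mul, h']
  have h4 : π z = (r * π w ^ p ^ j) ^ p := by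
    rw [mul_pow, hr, div_mul_cancel₀ _ (pow_ne_zero _ (pow_ne_zero _ hw0))]
  rw [map_pow, hu, div_pow, mul_pow, ← h4, h3, mul_div_cancel_right₀ _ (pow_ne_zero _ (h0 s' hs'))]

/-- The separation. -/
theorem sep_pow {p k : ℕ} {G : Pl L → Prop} {S : Set (Pl L)} (hp : 0 < p) (hk : 1 ≤ k) (hμ : ∀ z : 𝓞 L, z ^ p = 1 → z = 1)
    (hsep : Sep p k G) (hS : S.Finite) :
    ∃ Q : Finset (Pl L), (∀ q ∈ Q, q ∉ S ∧ G q ∧ p ^ k ∣ Ideal.absNorm q.asIdeal - 1) ∧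
      ∀ x : 𝓞 L, x ≠ 0 → (∃ c : Ideal (𝓞 L), Ideal.span {x} = c ^ p ^ k) → (∀ q ∈ Q, x ∉ q.asIdeal) →
        (∀ q ∈ Q, ∃ z : 𝓞 L, z ^ p ^ k - x ∈ q.asIdeal) → ∃ z : 𝓞 L, z ^ p ^ k = x := by
  classical
  obtain ⟨Y, hY⟩ := fin_rep (L := L) p hp
  obtain ⟨k, rfl⟩ : ∃ k', k = k' + 1 := ⟨k - 1, by omega⟩
  choose q hq using fun y : {y // y ∈ Y.filter fun y => y ≠ 0 ∧ ¬ ∃ z : 𝓞 L, z ^ p = y} =>
    hsep S hS y.1 (Finset.mem_filter.1 y.2).2.1 (Finset.mem_filter.1 y.2).2.2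
  refine ⟨(Y.filter fun y => y ≠ 0 ∧ ¬ ∃ z : 𝓞 L, z ^ p = y).attach.image q, ?_, fun x hx hc hxq hxp => ?_⟩
  · intro q' hq'
    obtain ⟨y, -, rfl⟩ := Finset.mem_image.1 hq'
    exact ⟨(hq y).1, (hq y).2.1, (hq y).2.2.2.1⟩
  obtain ⟨c, hc⟩ := hc
  have key : ∀ i, i ≤ k + 1 → ∃ z : 𝓞 L, z ^ p ^ (k + 1) = x ^ p ^ (k + 1 - i) := by
    intro i
    induction i with
    | zero => exact fun _ => ⟨x, rfl⟩
    | succ i ih =>
      intro hi
      obtain ⟨z, hz⟩ := ih (by omega)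
      obtain ⟨j, hj⟩ : ∃ j, j = k + 1 - (i + 1) := ⟨_, rfl⟩
      have hj' : k + 1 - i = j + 1 := by omega
      rw [← hj]
      rw [hj', pow_succ, pow_mul, pow_succ, pow_mul] at hz
      have hz1 := pow_inj hp hμ hz
      have hz0 : z ≠ 0 := by
        rintro rfl
        rw [zero_pow (pow_pos hp k).ne'] at hz1
        exact pow_ne_zero _ hx hz1.symm
      have hid : Ideal.span {z} = (c ^ p ^ j) ^ p := by
        refine ideal_pow_inj (pow_pos hp k).ne' ?_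
        rw [Ideal.span_singleton_pow, hz1, ← Ideal.span_singleton_pow, hc, ← pow_mul, ← pow_mul, ← pow_mul]
        congr 1
        ring
      by_cases hw : ∃ w : 𝓞 L, w ^ p = z
      · obtain ⟨w, hw⟩ := hw
        refine ⟨w, ?_⟩
        rw [pow_succ', pow_mul, hw, hz1]
      · exfalso
        obtain ⟨y, hyY, s, t, hs, ht, hst⟩ := hY z hz0 ⟨_, hid⟩
        have hy0 : y ≠ 0 := by
          rintro rfl
          rw [zero_mul] at hst
          exact mul_ne_zero hz0 (pow_ne_zero _ ht) hst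
        have hyp : ¬ ∃ w : 𝓞 L, w ^ p = y := by
          rintro ⟨w, hw'⟩
          rw [← hw', ← mul_pow] at hst
          exact hw (div_root hp ht hst)
        have hy' : y ∈ Y.filter fun y => y ≠ 0 ∧ ¬ ∃ z : 𝓞 L, z ^ p = y := Finset.mem_filter.2 ⟨hyY, hy0, hyp⟩
        have hqQ : q ⟨y, hy'⟩ ∈ (Y.filter fun y => y ≠ 0 ∧ ¬ ∃ z : 𝓞 L, z ^ p = y).attach.image q :=
          Finset.mem_image_of_mem _ (Finset.mem_attach _ _)
        obtain ⟨w, hw'⟩ := hxp _ hqQ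
        obtain ⟨-, -, h3, h4, h5⟩ := hq ⟨y, hy'⟩
        exact h5 (step_q hp _ h4 (hxq _ hqQ) hz1 h3 ht hst hw')
  obtain ⟨z, hz⟩ := key (k + 1) le_rfl
  rw [Nat.sub_self, pow_zero, pow_one] at hz
  exact ⟨z, hz⟩

end H35AX
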