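import Mathlib
import Pool.Agent.Lib.H35AX.A3

/-! # H35AX, A4: the existence of the characters -/

open NumberField IsDedekindDomain
open scoped nonZeroDivisors

namespace H35AX

open H55R (Pl pv)
open H41S (CH)

variable {L : Type} [Field L] [NumberField L] {v : Pl L} {N : ℕ} {κ : 𝓞 L → ℂˣ}

theorem one_nm (v : Pl L) : (1 : 𝓞 L) ∉ v.asIdeal := (Ideal.ne_top_iff_one _).1 v.isPrime.ne_top

theorem mul_nm {v : Pl L} {x y : 𝓞 L} (hx : x ∉ v.asIdeal) (hy : y ∉ v.asIdeal) : x * y ∉ v.asIdeal := fun h =>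
  (v.isPrime.mem_or_mem h).elim hx hy

theorem pow_nm {v : Pl L} {x : 𝓞 L} (hx : x ∉ v.asIdeal) (n : ℕ) : x ^ n ∉ v.asIdeal := fun h => hx (v.isPrime.mem_of_pow_mem n h)

theorem Loc.one (h : Loc v N κ) : κ 1 = 1 := by
  have h1 := h.mul 1 1 (one_nm v) (one_nm v)
  rw [mul_one] at h1
  exact left_eq_mul.1 h1

theorem Loc.powK (h : Loc v N κ) {x : 𝓞 L} (hx : x ∉ v.asIdeal) (n : ℕ) : κ (x ^ n) = κ x ^ n := by
  induction n with
  | zero => rw [pow_zero, pow_zero, h.one]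
  | succ n ih => rw [pow_succ, pow_succ, h.mul _ _ (pow_nm hx n) hx, ih]

/-- The character modulo g. -/
theorem lam_exists (hN : 0 < N) (g : Ideal (𝓞 L)) (hκ : Loc v N κ)
    (hsep : ∀ x : 𝓞 L, x ≠ 0 → x ∉ v.asIdeal → IsUnit (Ideal.Quotient.mk g x) → (∃ c : Ideal (𝓞 L), Ideal.span {x} = c ^ N) →
      (∃ z : 𝓞 L, z ^ N - x ∈ g) → ∃ z : 𝓞 L, z ^ N = x) :
    ∃ χ : (𝓞 L ⧸ g)ˣ →* ℂˣ, (∀ d, χ d ^ N = 1) ∧ ∀ (x : 𝓞 L) (d : (𝓞 L ⧸ g)ˣ), x ≠ 0 → x ∉ v.asIdeal →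
      (d : 𝓞 L ⧸ g) = Ideal.Quotient.mk g x → (∃ c : Ideal (𝓞 L), Ideal.span {x} = c ^ N) → κ x * χ d = 1 := by
  classical
  let Good : 𝓞 L → (𝓞 L ⧸ g)ˣ → Prop := fun x d => x ≠ 0 ∧ x ∉ v.asIdeal ∧ (d : 𝓞 L ⧸ g) = Ideal.Quotient.mk g x ∧
    ∃ c : Ideal (𝓞 L), Ideal.span {x} = c ^ N
  have hG1 : Good 1 1 := ⟨one_ne_zero, one_nm v, by rw [Units.val_one, map_one], 1, by rw [one_pow, Ideal.span_singleton_one, Ideal.one_eq_top]⟩
  have hGm : ∀ x d y e, Good x d → Good y e → Good (x * y) (d * e) := by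
    rintro x d y e ⟨h1, h2, h3, c, h4⟩ ⟨h5, h6, h7, c', h8⟩
    exact ⟨mul_ne_zero h1 h5, mul_nm h2 h6, by rw [Units.val_mul, map_mul, h3, h7], c * c', by
      rw [mul_pow, ← h4, ← h8, Ideal.span_singleton_mul_span_singleton]⟩
  have hGp : ∀ x d (n : ℕ), Good x d → Good (x ^ n) (d ^ n) := by
    intro x d n h
    induction n with
    | zero =>
      rw [pow_zero, pow_zero]
      exact hG1
    | succ n ih =>
      rw [pow_succ, pow_succ]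
      exact hGm _ _ _ _ ih h
  let Γ : Subgroup ((𝓞 L ⧸ g)ˣ × ℂˣ) :=
    { carrier := {z | ∃ x y d e b, Good x d ∧ Good y e ∧ z.1 * e = d * b ^ N ∧ z.2 * κ x = κ y}
      one_mem' := ⟨1, 1, 1, 1, 1, hG1, hG1, by simp, by simp⟩
      mul_mem' := by
        rintro z z' ⟨x, y, d, e, b, h1, h2, h3, h4⟩ ⟨x', y', d', e', b', h1', h2', h3', h4'⟩
        refine ⟨x * x', y * y', d * d', e * e', b * b', hGm _ _ _ _ h1 h1', hGm _ _ _ _ h2 h2', ?_, ?_⟩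
        · show z.1 * z'.1 * (e * e') = _
          rw [mul_mul_mul_comm, h3, h3', mul_pow]
          exact mul_mul_mul_comm _ _ _ _
        · show z.2 * z'.2 * _ = _
          rw [hκ.mul _ _ h1.2.1 h1'.2.1, hκ.mul _ _ h2.2.1 h2'.2.1, mul_mul_mul_comm, h4, h4']
      inv_mem' := by
        rintro z ⟨x, y, d, e, b, h1, h2, h3, h4⟩
        refine ⟨y, x, e, d, b⁻¹, h2, h1, ?_, ?_⟩
        · show z.1⁻¹ * d = e * b⁻¹ ^ N
          rw [inv_mul_eq_iff_eq_mul, inv_pow, ← mul_assoc, h3, mul_inv_cancel_right]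
        · show z.2⁻¹ * κ y = κ x
          rw [inv_mul_eq_iff_eq_mul, h4] }
  obtain ⟨χ, hχ⟩ := ext_graph Γ (by
    rintro c ⟨x, y, d, e, b, h1, h2, h3, h4⟩
    have h3' : e = d * b ^ N := by
      rw [← h3]
      exact (one_mul e).symm
    have h4' : c * κ x = κ y := h4
    have h5 := hGm _ _ _ _ (hGp _ _ (N - 1) h1) h2
    have h6 : d ^ (N - 1) * e = (d * b) ^ N := by
      rw [h3', ← mul_assoc, ← pow_succ, Nat.sub_add_cancel hN, mul_pow]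
    obtain ⟨z, hz⟩ := hsep _ h5.1 h5.2.1 (by rw [← h5.2.2.1]; exact Units.isUnit _) h5.2.2.2 (by
      obtain ⟨u, hu⟩ := Ideal.Quotient.mk_surjective ((d * b : (𝓞 L ⧸ g)ˣ) : 𝓞 L ⧸ g)
      refine ⟨u, Ideal.Quotient.eq.1 ?_⟩
      rw [map_pow, hu, ← h5.2.2.1, h6, Units.val_pow_eq_pow_val])
    have hzv : z ∉ v.asIdeal := by
      intro h7
      apply h5.2.1
      rw [← hz]
      exact Ideal.pow_mem_of_mem _ h7 N hN
    have h7 : κ (x ^ (N - 1) * y) = 1 := by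
      rw [← hz, hκ.powK hzv, hκ.pow z hzv]
    rw [hκ.mul _ _ (pow_nm h1.2.1 _) h2.2.1, hκ.powK h1.2.1] at h7
    have h8 : κ y = κ x := by
      have h9 : κ x * (κ x ^ (N - 1) * κ y) = κ x * 1 := by rw [h7]
      rw [← mul_assoc, ← pow_succ', Nat.sub_add_cancel hN, hκ.pow x h1.2.1, one_mul, mul_one] at h9
      exact h9
    rw [h8] at h4'
    exact mul_eq_right.1 h4')
  refine ⟨χ, fun d => ?_, fun x d h1 h2 h3 h4 => ?_⟩
  · rw [← map_pow]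
    exact hχ (d ^ N, 1) ⟨1, 1, 1, 1, d, hG1, hG1, by simp, by simp⟩
  · have h5 := hχ (d, (κ x)⁻¹) ⟨x, 1, d, 1, 1, ⟨h1, h2, h3, h4⟩, hG1, by simp, by simp [hκ.one]⟩
    have h6 : χ d = (κ x)⁻¹ := h5
    rw [h6, mul_inv_cancel]

section frac

/-- The fractional ideal of a nonzero ideal. -/
noncomputable def dv (c : Ideal (𝓞 L)) : (FractionalIdeal (𝓞 L)⁰ L)ˣ := by
  classical
  exact if h : (c : FractionalIdeal (𝓞 L)⁰ L) = 0 then 1 else Units.mk0 _ h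

theorem dv_val {c : Ideal (𝓞 L)} (hc : c ≠ ⊥) : ((dv c : (FractionalIdeal (𝓞 L)⁰ L)ˣ) : FractionalIdeal (𝓞 L)⁰ L) = c := by
  classical
  unfold dv
  rw [dif_neg fun h => hc (FractionalIdeal.coeIdeal_eq_zero.1 h)]
  rfl

theorem dv_mul {a b : Ideal (𝓞 L)} (ha : a ≠ ⊥) (hb : b ≠ ⊥) : dv (a * b) = dv a * dv b := by
  apply Units.ext
  rw [Units.val_mul, dv_val ha, dv_val hb, dv_val, FractionalIdeal.coeIdeal_mul]
  rw [← Ideal.zero_eq_bot] at ha hb ⊢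
  exact mul_ne_zero ha hb

theorem dv_one : dv (1 : Ideal (𝓞 L)) = 1 := by
  apply Units.ext
  rw [dv_val, Units.val_one]
  · rw [Ideal.one_eq_top, FractionalIdeal.coeIdeal_top]
  · rw [Ideal.one_eq_top]
    exact top_ne_bot

/-- The N-th roots of integral ideals are integral. -/
theorem root_int (hN : 0 < N) {x : Ideal (𝓞 L)} (hx : x ≠ ⊥) {e : (FractionalIdeal (𝓞 L)⁰ L)ˣ} (h : dv x = e ^ N) :
    ∃ c : Ideal (𝓞 L), x = c ^ N := by
  obtain ⟨a, I, ha, hI⟩ := FractionalIdeal.exists_eq_spanSingleton_mul (e : FractionalIdeal (𝓞 L)⁰ L)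
  have ha' : (algebraMap (𝓞 L) L a) ≠ 0 := by
    intro h1
    exact ha (FaithfulSMul.algebraMap_injective (𝓞 L) L (by rw [h1, map_zero]))
  have h1 : FractionalIdeal.spanSingleton (𝓞 L)⁰ (algebraMap (𝓞 L) L a) * (e : FractionalIdeal (𝓞 L)⁰ L) = I := by
    rw [hI, ← mul_assoc, FractionalIdeal.spanSingleton_mul_spanSingleton, mul_inv_cancel₀ ha', FractionalIdeal.spanSingleton_one, one_mul]
  have h2 : ((Ideal.span {a} ^ N * x : Ideal (𝓞 L)) : FractionalIdeal (𝓞 L)⁰ L) = ((I ^ N : Ideal (𝓞 L)) : FractionalIdeal (𝓞 L)⁰ L) := by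
    rw [FractionalIdeal.coeIdeal_mul, FractionalIdeal.coeIdeal_pow, FractionalIdeal.coeIdeal_pow, FractionalIdeal.coeIdeal_span_singleton,
      ← dv_val hx, h, Units.val_pow_eq_pow_val, ← mul_pow, h1]
  have h3 : Ideal.span {a} ^ N * x = I ^ N := FractionalIdeal.coeIdeal_injective h2
  obtain ⟨c, rfl⟩ := (UniqueFactorizationMonoid.pow_dvd_pow_iff_dvd hN.ne').1 (Dvd.intro _ h3)
  refine ⟨c, ?_⟩
  rw [mul_pow] at h3
  refine mul_left_cancel₀ (pow_ne_zero N ?_) h3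
  rw [Ne, Ideal.zero_eq_bot, Ideal.span_singleton_eq_bot]
  exact ha

end frac

end H35AX
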