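import Mathlib
import Pool.Agent.Lib.H35AX.A4

/-! # H35AX, A5: the extension to all ideals -/

open NumberField IsDedekindDomain
open scoped nonZeroDivisors

namespace H35AX

open H55R (Pl pv)
open H41S (CH)

variable {L : Type} [Field L] [NumberField L] {v : Pl L} {N : ℕ} {κ : 𝓞 L → ℂˣ}

theorem span_nb {x : 𝓞 L} (hx : x ≠ 0) : Ideal.span {x} ≠ (⊥ : Ideal (𝓞 L)) := by
  rw [Ne, Ideal.span_singleton_eq_bot]
  exact hx

theorem dv_sp {x y : 𝓞 L} (hx : x ≠ 0) (hy : y ≠ 0) : dv (Ideal.span {x * y}) = dv (Ideal.span {x}) * dv (Ideal.span {y}) := by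
  rw [← Ideal.span_singleton_mul_span_singleton, dv_mul (span_nb hx) (span_nb hy)]

theorem dv_sp_pow {x : 𝓞 L} (hx : x ≠ 0) (n : ℕ) : dv (Ideal.span {x ^ n}) = dv (Ideal.span {x}) ^ n := by
  induction n with
  | zero => rw [pow_zero, pow_zero, Ideal.span_singleton_one, ← Ideal.one_eq_top, dv_one]
  | succ n ih => rw [pow_succ, pow_succ, dv_sp (pow_ne_zero n hx) hx, ih]

/-- The character of all ideals. -/
theorem char_exists (hN : 0 < N) (g : Ideal (𝓞 L)) (hκ : Loc v N κ)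
    (hsep : ∀ x : 𝓞 L, x ≠ 0 → x ∉ v.asIdeal → IsUnit (Ideal.Quotient.mk g x) → (∃ c : Ideal (𝓞 L), Ideal.span {x} = c ^ N) →
      (∃ z : 𝓞 L, z ^ N - x ∈ g) → ∃ z : 𝓞 L, z ^ N = x) :
    ∃ (χ : (𝓞 L ⧸ g)ˣ →* ℂˣ) (ψ : Pl L → ℂˣ), (∀ d, χ d ^ N = 1) ∧ ψ ^ N = 1 ∧
      ∀ (x : 𝓞 L) (d : (𝓞 L ⧸ g)ˣ), x ≠ 0 → x ∉ v.asIdeal → (d : 𝓞 L ⧸ g) = Ideal.Quotient.mk g x →
        pv ψ (Ideal.span {x}) = κ x * χ d := by
  classical
  obtain ⟨χ, hχN, hχ⟩ := lam_exists hN g hκ hsep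
  let OK : 𝓞 L → (𝓞 L ⧸ g)ˣ → Prop := fun x d => x ≠ 0 ∧ x ∉ v.asIdeal ∧ (d : 𝓞 L ⧸ g) = Ideal.Quotient.mk g x
  have hG1 : OK 1 1 := ⟨one_ne_zero, one_nm v, by rw [Units.val_one, map_one]⟩
  have hGm : ∀ x d y e, OK x d → OK y e → OK (x * y) (d * e) := by
    rintro x d y e ⟨h1, h2, h3⟩ ⟨h5, h6, h7⟩
    exact ⟨mul_ne_zero h1 h5, mul_nm h2 h6, by rw [Units.val_mul, map_mul, h3, h7]⟩
  have hGp : ∀ x d (n : ℕ), OK x d → OK (x ^ n) (d ^ n) := by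
    intro x d n h
    induction n with
    | zero =>
      rw [pow_zero, pow_zero]
      exact hG1
    | succ n ih =>
      rw [pow_succ, pow_succ]
      exact hGm _ _ _ _ ih h
  have hlm : ∀ x d y e, OK x d → OK y e → κ (x * y) * χ (d * e) = κ x * χ d * (κ y * χ e) := by
    intro x d y e h1 h2
    rw [hκ.mul _ _ h1.2.1 h2.2.1, map_mul]
    exact mul_mul_mul_comm _ _ _ _
  have hlp : ∀ x d (n : ℕ), OK x d → κ (x ^ n) * χ (d ^ n) = (κ x * χ d) ^ n := by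
    intro x d n h
    rw [hκ.powK h.2.1, map_pow, mul_pow]
  have h11 : κ 1 * χ 1 = 1 := by rw [hκ.one, map_one, one_mul]
  let Γ : Subgroup ((FractionalIdeal (𝓞 L)⁰ L)ˣ × ℂˣ) :=
    { carrier := {z | ∃ x y d e b, OK x d ∧ OK y e ∧ z.1 * dv (Ideal.span {y}) = dv (Ideal.span {x}) * b ^ N ∧
        z.2 * (κ y * χ e) = κ x * χ d}
      one_mem' := ⟨1, 1, 1, 1, 1, hG1, hG1, by simp, by simp⟩
      mul_mem' := by
        rintro z z' ⟨x, y, d, e, b, h1, h2, h3, h4⟩ ⟨x', y', d', e', b', h1', h2', h3', h4'⟩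
        refine ⟨x * x', y * y', d * d', e * e', b * b', hGm _ _ _ _ h1 h1', hGm _ _ _ _ h2 h2', ?_, ?_⟩
        · show z.1 * z'.1 * _ = _
          rw [dv_sp h2.1 h2'.1, dv_sp h1.1 h1'.1, mul_mul_mul_comm, h3, h3', mul_pow]
          exact mul_mul_mul_comm _ _ _ _
        · show z.2 * z'.2 * _ = _
          rw [hlm _ _ _ _ h1 h1', hlm _ _ _ _ h2 h2', mul_mul_mul_comm, h4, h4']
      inv_mem' := by
        rintro z ⟨x, y, d, e, b, h1, h2, h3, h4⟩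
        refine ⟨y, x, e, d, b⁻¹, h2, h1, ?_, ?_⟩
        · show z.1⁻¹ * _ = _
          rw [inv_mul_eq_iff_eq_mul, inv_pow, ← mul_assoc, h3, mul_inv_cancel_right]
        · show z.2⁻¹ * _ = _
          rw [inv_mul_eq_iff_eq_mul, h4] }
  obtain ⟨Ψ, hΨ⟩ := ext_graph Γ (by
    rintro c ⟨x, y, d, e, b, h1, h2, h3, h4⟩
    have h3' : dv (Ideal.span {y}) = dv (Ideal.span {x}) * b ^ N := by
      rw [← h3]
      exact (one_mul _).symm
    have h4' : c * (κ y * χ e) = κ x * χ d := h4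
    have h5 := hGm _ _ _ _ (hGp _ _ (N - 1) h1) h2
    have h6 : dv (Ideal.span {x ^ (N - 1) * y}) = (dv (Ideal.span {x}) * b) ^ N := by
      rw [dv_sp (pow_ne_zero _ h1.1) h2.1, dv_sp_pow h1.1, h3', ← mul_assoc, ← pow_succ, Nat.sub_add_cancel hN, mul_pow]
    obtain ⟨c', hc'⟩ := root_int hN (span_nb h5.1) h6
    have h7 := hχ _ _ h5.1 h5.2.1 h5.2.2 ⟨c', hc'⟩
    rw [hlm _ _ _ _ (hGp _ _ (N - 1) h1) h2, hlp _ _ _ h1] at h7
    have h8 : (κ x * χ d) ^ N = 1 := by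
      rw [mul_pow, hκ.pow x h1.2.1, hχN, one_mul]
    have h9 : κ x * χ d * ((κ x * χ d) ^ (N - 1) * (κ y * χ e)) = κ x * χ d * 1 := by rw [h7]
    rw [← mul_assoc, ← pow_succ', Nat.sub_add_cancel hN, h8, one_mul, mul_one] at h9
    rw [h9] at h4'
    exact mul_eq_right.1 h4')
  have hΨN : ∀ b, Ψ b ^ N = 1 := by
    intro b
    rw [← map_pow]
    exact hΨ (b ^ N, 1) ⟨1, 1, 1, 1, b, hG1, hG1, mul_comm _ _, by simp⟩
  refine ⟨χ, fun w => Ψ (dv w.asIdeal), hχN, funext fun w => hΨN _, fun x d h1 h2 h3 => ?_⟩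
  have h4 := pv_of (fun c => Ψ (dv c)) (by rw [dv_one, map_one]) (fun a b ha hb => by rw [dv_mul ha hb, map_mul]) _ (span_nb h1)
  rw [h4]
  exact hΨ (dv (Ideal.span {x}), κ x * χ d) ⟨x, 1, d, 1, 1, ⟨h1, h2, h3⟩, hG1, by
    show dv (Ideal.span {x}) * dv (Ideal.span {1}) = dv (Ideal.span {x}) * 1 ^ N
    rw [Ideal.span_singleton_one, ← Ideal.one_eq_top, dv_one, one_pow], by simp [hκ.one]⟩

end H35AX
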