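import Mathlib
import Pool.Agent.Lib.H35AX.A5

/-! # H35AX, A6: the character with a given component at v -/

open NumberField IsDedekindDomain
open scoped nonZeroDivisors

namespace H35AX

open H55R (Pl pv)
open H41S (CH)

variable {L : Type} [Field L] [NumberField L] {p k n : ℕ} {G : Pl L → Prop} {S : Set (Pl L)} {v : Pl L}

theorem p_nm (hk : 1 ≤ k) {q : Pl L} (h : p ^ k ∣ Ideal.absNorm q.asIdeal - 1) : (p : 𝓞 L) ∉ q.asIdeal := by
  intro hp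
  have h1 : ((Ideal.absNorm q.asIdeal : ℕ) : 𝓞 L) ∈ q.asIdeal := Ideal.absNorm_mem q.asIdeal
  obtain ⟨c, hc⟩ := (dvd_pow_self p (by omega : k ≠ 0)).trans h
  have h0 : 0 < Ideal.absNorm q.asIdeal := Nat.pos_of_ne_zero fun h2 => q.ne_bot (Ideal.absNorm_eq_zero_iff.1 h2)
  have h2 : Ideal.absNorm q.asIdeal = p * c + 1 := by omega
  rw [h2, Nat.cast_add, Nat.cast_mul, Nat.cast_one] at h1
  apply one_nm q
  have h3 := Ideal.sub_mem _ h1 (Ideal.mul_mem_right (c : 𝓞 L) _ hp)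
  rwa [add_sub_cancel_left] at h3

theorem cop_span {v : Pl L} {x : 𝓞 L} (hx : x ∉ v.asIdeal) : IsCoprime (Ideal.span {x}) v.asIdeal := by
  rw [Ideal.isCoprime_iff_sup_eq, sup_comm]
  by_contra h
  have h1 := v.isMaximal.eq_of_le h le_sup_left
  apply hx
  rw [h1]
  exact (le_sup_right : Ideal.span {x} ≤ _) (Ideal.mem_span_singleton_self x)

theorem cop_prod {ι : Type*} (Q : Finset ι) (f : ι → Ideal (𝓞 L)) (a : Ideal (𝓞 L)) (h : ∀ i ∈ Q, IsCoprime (f i) a) :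
    IsCoprime (∏ i ∈ Q, f i) a := IsCoprime.prod_left h

theorem unit_q {g : Ideal (𝓞 L)} {x : 𝓞 L} (h : IsCoprime (Ideal.span {x}) g) : IsUnit (Ideal.Quotient.mk g x) := by
  obtain ⟨a, ha, b, hb, hab⟩ := Ideal.isCoprime_iff_exists.1 h
  obtain ⟨y, rfl⟩ := Ideal.mem_span_singleton.1 ha
  refine IsUnit.of_mul_eq_one (Ideal.Quotient.mk g y) ?_
  rw [← map_mul, ← map_one (Ideal.Quotient.mk g)]
  refine Ideal.Quotient.eq.2 ?_
  have h1 : x * y - 1 = -b := by rw [← hab]; ring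
  rw [h1]
  exact neg_mem hb

/-- The same for an abstract ideal g. -/
theorem aux_g (hN : 0 < n) {g : Ideal (𝓞 L)} (hg : g ≠ ⊥) (hgp : IsCoprime g (Ideal.span {(p : 𝓞 L)})) (hv : (p : 𝓞 L) ∉ v.asIdeal)
    {κ : 𝓞 L → ℂˣ} (hκ : Loc v n κ)
    (hs : ∀ x : 𝓞 L, x ≠ 0 → x ∉ v.asIdeal → IsUnit (Ideal.Quotient.mk g x) → (∃ c : Ideal (𝓞 L), Ideal.span {x} = c ^ n) →
      (∃ z : 𝓞 L, z ^ n - x ∈ g) → ∃ z : 𝓞 L, z ^ n = x) :
    ∃ ψ : Pl L → ℂˣ, CH p n (v.asIdeal * g) ψ ∧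
      ∀ x : 𝓞 L, x ≠ 0 → x ∉ v.asIdeal → x - 1 ∈ g → pv ψ (Ideal.span {x}) = κ x := by
  classical
  obtain ⟨χ, ψ, h1, h2, h3⟩ := char_exists (v := v) (N := n) (κ := κ) hN g hκ hs
  refine ⟨ψ, ⟨?_, ?_, h2, fun x y hx hy hxf hxy => ?_⟩, fun x hx hxv hx1 => ?_⟩
  · rw [← Ideal.zero_eq_bot]
    exact mul_ne_zero v.ne_bot hg
  · exact IsCoprime.mul_left (cop_span hv).symm hgp
  · have h4 := IsCoprime.of_mul_right_left hxf
    have h5 := IsCoprime.of_mul_right_right hxf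
    obtain ⟨d, hd⟩ := unit_q h5
    have hxv : x ∉ v.asIdeal := by
      intro h6
      rw [Ideal.isCoprime_iff_sup_eq] at h4
      apply v.isPrime.ne_top
      rw [eq_top_iff, ← h4]
      exact sup_le ((Ideal.span_singleton_le_iff_mem _).2 h6) le_rfl
    have e1 : v.asIdeal * g ≤ v.asIdeal := Ideal.mul_le_left
    have e2 : v.asIdeal * g ≤ g := Ideal.mul_le_right
    have h6 : x - y ∈ v.asIdeal := e1 hxy
    have h7 : x - y ∈ g := e2 hxy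
    have hyv : y ∉ v.asIdeal := by
      intro h8
      apply hxv
      have h9 := Ideal.add_mem _ h6 h8
      rwa [sub_add_cancel] at h9
    rw [h3 x d hx hxv hd, h3 y d hy hyv (by rw [hd]; exact Ideal.Quotient.eq.2 h7), hκ.per x y hxv h6]
  · have h4 : ((1 : (𝓞 L ⧸ g)ˣ) : 𝓞 L ⧸ g) = Ideal.Quotient.mk g x := by
      rw [Units.val_one, ← map_one (Ideal.Quotient.mk g)]
      exact (Ideal.Quotient.eq.2 hx1).symm
    rw [h3 x 1 hx hxv h4, map_one, mul_one]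

/-- There is a character of order dividing p^k with the component κ at v, otherwise ramified only at finitely many primes with the property
G, not in S. -/
theorem aux_char (hp : p.Prime) (hk : 1 ≤ k) (hμ : ∀ z : 𝓞 L, z ^ p = 1 → z = 1) (hsep : Sep p k G) (hS : S.Finite)
    (hv : (p : 𝓞 L) ∉ v.asIdeal) {κ : 𝓞 L → ℂˣ} (hκ : Loc v (p ^ k) κ) :
    ∃ (Q : Finset (Pl L)) (ψ : Pl L → ℂˣ), (∀ q ∈ Q, q ∉ S ∧ G q ∧ q ≠ v ∧ (p : 𝓞 L) ∉ q.asIdeal) ∧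
      CH p (p ^ k) (v.asIdeal * ∏ q ∈ Q, q.asIdeal) ψ ∧
      ∀ x : 𝓞 L, x ≠ 0 → x ∉ v.asIdeal → x - 1 ∈ ∏ q ∈ Q, q.asIdeal → pv ψ (Ideal.span {x}) = κ x := by
  classical
  obtain ⟨Q, hQ, hQ2⟩ := sep_pow (S := insert v S) hp.pos hk hμ hsep (hS.insert v)
  have hgq : ∀ q ∈ Q, ∏ q ∈ Q, q.asIdeal ≤ q.asIdeal := fun q hq => Ideal.prod_le_inf.trans (Finset.inf_le hq)
  have hg0 : ∏ q ∈ Q, q.asIdeal ≠ ⊥ := by
    rw [← Ideal.zero_eq_bot]
    exact Finset.prod_ne_zero_iff.2 fun q _ => q.ne_bot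
  have hgp : IsCoprime (∏ q ∈ Q, q.asIdeal) (Ideal.span {(p : 𝓞 L)}) :=
    cop_prod _ _ _ fun q hq => (cop_span (p_nm hk (hQ q hq).2.2)).symm
  refine ⟨Q, ?_⟩
  generalize ∏ q ∈ Q, q.asIdeal = g at hgq hg0 hgp ⊢
  obtain ⟨ψ, h1, h2⟩ := aux_g (pow_pos hp.pos k) hg0 hgp hv hκ (by
    intro x hx hxv hu hc hz
    refine hQ2 x hx hc (fun q hq hxq => ?_) (fun q hq => ?_)
    · obtain ⟨y, hy⟩ := isUnit_iff_exists_inv.1 hu
      obtain ⟨y, rfl⟩ := Ideal.Quotient.mk_surjective y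
      rw [← map_mul, ← map_one (Ideal.Quotient.mk g)] at hy
      have h4 := hgq q hq (Ideal.Quotient.eq.1 hy)
      apply one_nm q
      have h5 := Ideal.sub_mem _ (Ideal.mul_mem_right y _ hxq) h4
      rwa [sub_sub_cancel] at h5
    · obtain ⟨z, hz⟩ := hz
      exact ⟨z, hgq q hq hz⟩)
  refine ⟨ψ, fun q hq => ?_, ?_, ?_⟩
  · obtain ⟨h4, h5, h6⟩ := hQ q hq
    exact ⟨fun h => h4 (Set.mem_insert_of_mem _ h), h5, fun h => h4 (h ▸ Set.mem_insert _ _), p_nm hk h6⟩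
  · exact h1
  · exact h2

end H35AX
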