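import Mathlib
import Pool.Agent.Lib.H35AX.A6

/-! # H35AX, A7: extension of ray class characters to finitely many primes -/

open NumberField IsDedekindDomain
open scoped nonZeroDivisors

namespace H35AX

open H55R (Pl pv pv_mul pv_prime pv_pow pv_one_fun)
open H41S (CH pv_congr)

variable {L : Type} [Field L] [NumberField L] {p n : ℕ} {v : Pl L} {f : Ideal (𝓞 L)} {χ : Pl L → ℂˣ}

theorem pv_sp (χ : Pl L → ℂˣ) {x y : 𝓞 L} (hx : x ≠ 0) (hy : y ≠ 0) :
    pv χ (Ideal.span {x * y}) = pv χ (Ideal.span {x}) * pv χ (Ideal.span {y}) := by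
  rw [← Ideal.span_singleton_mul_span_singleton, pv_mul χ (span_nb hx) (span_nb hy)]

/-- Inverses modulo f. -/
theorem inv_f {x : 𝓞 L} (h : IsCoprime (Ideal.span {x}) f) : ∃ c : 𝓞 L, c ≠ 0 ∧ x * c - 1 ∈ f := by
  obtain ⟨a, ha, b, hb, hab⟩ := Ideal.isCoprime_iff_exists.1 h
  obtain ⟨c, rfl⟩ := Ideal.mem_span_singleton.1 ha
  by_cases hc : c = 0
  · refine ⟨1, one_ne_zero, ?_⟩
    rw [hc, mul_zero, zero_add] at hab
    rw [hab] at hb
    rw [(Ideal.eq_top_iff_one f).2 hb]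
    exact Submodule.mem_top
  · refine ⟨c, hc, ?_⟩
    have h1 : x * c - 1 = -b := by rw [← hab]; ring
    rw [h1]
    exact neg_mem hb

/-- A character which is trivial at the elements 1 modulo f is a ray class character modulo f. -/
theorem ch_of_one (hf : f ≠ ⊥) (hfp : IsCoprime f (Ideal.span {(p : 𝓞 L)})) (hn : χ ^ n = 1)
    (h : ∀ x : 𝓞 L, x ≠ 0 → x - 1 ∈ f → pv χ (Ideal.span {x}) = 1) : CH p n f χ := by
  refine ⟨hf, hfp, hn, fun x y hx hy hxf hxy => ?_⟩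
  obtain ⟨c, hc, hc1⟩ := inv_f hxf
  have h1 := h (x * c) (mul_ne_zero hx hc) hc1
  have h2 := h (y * c) (mul_ne_zero hy hc) (by
    have h3 : y * c - 1 = (x * c - 1) - (x - y) * c := by ring
    rw [h3]
    exact Ideal.sub_mem _ hc1 (Ideal.mul_mem_right c _ hxy))
  rw [pv_sp χ hx hc] at h1
  rw [pv_sp χ hy hc] at h2
  exact mul_right_cancel (h1.trans h2.symm)

theorem one_of_ch (h : CH p n f χ) {x : 𝓞 L} (hx : x ≠ 0) (hx1 : x - 1 ∈ f) : pv χ (Ideal.span {x}) = 1 := by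
  have hc : IsCoprime (Ideal.span {x}) f :=
    Ideal.isCoprime_iff_exists.2 ⟨x, Ideal.mem_span_singleton_self x, -(x - 1), neg_mem hx1, by ring⟩
  rw [h.per x 1 hx one_ne_zero hc hx1, Ideal.span_singleton_one, ← Ideal.one_eq_top, H55R.pv_one]

theorem cop_ne {a : Ideal (𝓞 L)} (h : ¬ a ≤ v.asIdeal) : IsCoprime a v.asIdeal := by
  rw [Ideal.isCoprime_iff_sup_eq, sup_comm]
  by_contra h1
  have h2 := v.isMaximal.eq_of_le h1 le_sup_left
  apply h
  rw [h2]
  exact le_sup_right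

theorem not_mem_powE (v : Pl L) {x : 𝓞 L} (hx : x ≠ 0) : ∃ e : ℕ, x ∉ v.asIdeal ^ e := by
  have ht0 : Ideal.span {x} ≠ 0 := by
    rw [Ne, Ideal.zero_eq_bot, Ideal.span_singleton_eq_bot]
    exact hx
  obtain ⟨n, J, hJ, hJt⟩ := WfDvdMonoid.max_power_factor ht0 v.prime.irreducible
  refine ⟨n + 1, fun h => hJ ?_⟩
  have h1 := Ideal.dvd_span_singleton.2 h
  rw [hJt, pow_succ] at h1
  exact (mul_dvd_mul_iff_left (pow_ne_zero n v.prime.ne_zero)).1 h1

/-- The extension to one prime. -/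
theorem ext_v (T : Finset (Pl L)) (hf : ¬ f ≤ v.asIdeal) (hvT : v ∉ T) (hn : χ ^ n = 1)
    (h : ∀ x : 𝓞 L, x ≠ 0 → x - 1 ∈ f → x ∉ v.asIdeal → (∀ u ∈ T, x ∉ u.asIdeal) → pv χ (Ideal.span {x}) = 1) :
    ∃ χ' : Pl L → ℂˣ, (∀ w, w ≠ v → χ' w = χ w) ∧ χ' ^ n = 1 ∧
      ∀ x : 𝓞 L, x ≠ 0 → x - 1 ∈ f → (∀ u ∈ T, x ∉ u.asIdeal) → pv χ' (Ideal.span {x}) = 1 := by
  classical
  obtain ⟨A, hAdef⟩ : ∃ A : Ideal (𝓞 L), A = f * ∏ u ∈ T, u.asIdeal := ⟨_, rfl⟩
  have hAf : A ≤ f := by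
    rw [hAdef]
    exact Ideal.mul_le_left
  have hAT : ∀ u ∈ T, A ≤ u.asIdeal := by
    intro u hu
    rw [hAdef]
    exact Ideal.mul_le_right.trans (Ideal.prod_le_inf.trans (Finset.inf_le hu))
  have hAv : IsCoprime A v.asIdeal := by
    rw [hAdef]
    refine IsCoprime.mul_left (cop_ne hf) (cop_prod _ _ _ fun u hu => cop_ne fun h1 => hvT ?_)
    have h2 : u = v := HeightOneSpectrum.ext (u.isMaximal.eq_of_le v.isPrime.ne_top h1)
    rwa [← h2]
  clear hAdef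
  have hA1 : ∀ x : 𝓞 L, x - 1 ∈ A → ∀ u ∈ T, x ∉ u.asIdeal := by
    intro x hx u hu hxu
    apply one_nm u
    have h1 := Ideal.sub_mem _ hxu (hAT u hu hx)
    rwa [sub_sub_cancel] at h1
  -- the element y₀
  obtain ⟨π, hπ, hπ2⟩ : ∃ π ∈ v.asIdeal, π ∉ v.asIdeal ^ 2 := by
    by_contra hc
    push Not at hc
    have h1 : v.asIdeal ^ 2 ∣ v.asIdeal := Ideal.dvd_iff_le.2 hc
    rw [pow_two] at h1
    have h2 : v.asIdeal ∣ 1 := (mul_dvd_mul_iff_left v.prime.ne_zero).1 (by rwa [mul_one])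
    exact v.prime.not_unit (isUnit_of_dvd_one h2)
  obtain ⟨a, ha, b, hb, hab⟩ := Ideal.isCoprime_iff_exists.1 (IsCoprime.pow_right hAv (n := 2))
  -- a ∈ A, b ∈ v², a + b = 1
  obtain ⟨y₀, hy₀⟩ : ∃ y₀, y₀ = π * a + b := ⟨_, rfl⟩
  have hy1 : y₀ - 1 ∈ A := by
    have h1 : y₀ - 1 = (π - 1) * a := by
      rw [hy₀]
      linear_combination hab
    rw [h1]
    exact Ideal.mul_mem_left _ _ ha
  have hbv : b ∈ v.asIdeal := Ideal.pow_le_self two_ne_zero hb
  have hyv : y₀ ∈ v.asIdeal := by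
    rw [hy₀]
    exact Ideal.add_mem _ (Ideal.mul_mem_right _ _ hπ) hbv
  have hyv2 : y₀ ∉ v.asIdeal ^ 2 := by
    intro h1
    apply hπ2
    have h2 : π = y₀ - b + π * b := by
      have h3 : π = π * (a + b) := by rw [hab, mul_one]
      rw [hy₀]
      linear_combination h3
    rw [h2]
    exact Ideal.add_mem _ (Ideal.sub_mem _ h1 hb) (Ideal.mul_mem_left _ _ hb)
  have hy0 : y₀ ≠ 0 := by
    rintro h1
    rw [h1] at hyv2
    exact hyv2 (Ideal.zero_mem _)
  obtain ⟨c, hc⟩ := Ideal.dvd_span_singleton.2 hyv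
  have hcy : y₀ ∈ c := by
    have h1 : Ideal.span {y₀} ≤ c := by
      rw [hc]
      exact Ideal.mul_le_right
    exact h1 (Ideal.mem_span_singleton_self y₀)
  have hcv : ¬ c ≤ v.asIdeal := by
    intro h1
    apply hyv2
    have h2 : Ideal.span {y₀} ≤ v.asIdeal ^ 2 := by
      rw [hc, pow_two]
      exact Ideal.mul_mono_right h1
    exact h2 (Ideal.mem_span_singleton_self y₀)
  have hc0 : c ≠ ⊥ := by
    rintro rfl
    exact hcv bot_le
  have hcA : IsCoprime c (A * v.asIdeal) :=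
    IsCoprime.mul_right (Ideal.isCoprime_iff_exists.2 ⟨y₀, hcy, -(y₀ - 1), neg_mem hy1, by ring⟩) (cop_ne hcv)
  obtain ⟨z₀, hz₀, b', hb', hzb⟩ := Ideal.isCoprime_iff_exists.1 hcA
  have hz1 : z₀ - 1 ∈ A * v.asIdeal := by
    have h1 : z₀ - 1 = -b' := by rw [← hzb]; ring
    rw [h1]
    exact neg_mem hb'
  have hzA : z₀ - 1 ∈ A := (Ideal.mul_le_left : A * v.asIdeal ≤ A) hz1
  have hzv : z₀ ∉ v.asIdeal := by
    intro h1
    apply one_nm v
    have h2 := Ideal.sub_mem _ h1 ((Ideal.mul_le_right : A * v.asIdeal ≤ v.asIdeal) hz1)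
    rwa [sub_sub_cancel] at h2
  have hz0 : z₀ ≠ 0 := fun h1 => hzv (h1 ▸ Ideal.zero_mem _)
  -- the new character
  obtain ⟨χ', hχ'⟩ : ∃ χ' : Pl L → ℂˣ, χ' = Function.update χ v (pv χ c)⁻¹ := ⟨_, rfl⟩
  have hne : ∀ w, w ≠ v → χ' w = χ w := fun w hw => by rw [hχ', Function.update_of_ne hw]
  have hpv : ∀ d : Ideal (𝓞 L), ¬ d ≤ v.asIdeal → pv χ' d = pv χ d := fun d hd => pv_congr _ _ d fun w hw => hne w fun h1 => hd (h1 ▸ hw)
  have hsp : ∀ x : 𝓞 L, x ∉ v.asIdeal → pv χ' (Ideal.span {x}) = pv χ (Ideal.span {x}) := fun x hx =>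
    hpv _ fun h1 => hx (h1 (Ideal.mem_span_singleton_self x))
  have hy : pv χ' (Ideal.span {y₀}) = 1 := by
    rw [hc, pv_mul _ v.ne_bot hc0, pv_prime, hpv c hcv, hχ', Function.update_self, inv_mul_cancel]
  have hz : pv χ' (Ideal.span {z₀}) = 1 := by
    rw [hsp z₀ hzv]
    exact h z₀ hz0 (hAf hzA) hzv (hA1 z₀ hzA)
  refine ⟨χ', hne, ?_, fun x hx hx1 hxT => ?_⟩
  · funext w
    rw [Pi.pow_apply, Pi.one_apply]
    by_cases hw : w = v
    · rw [hw, hχ', Function.update_self, inv_pow, ← pv_pow, hn, pv_one_fun, inv_one]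
    · rw [hne w hw]
      exact congrFun hn w
  · have key : ∀ e : ℕ, ∀ x : 𝓞 L, x ≠ 0 → x ∉ v.asIdeal ^ e → x - 1 ∈ f → (∀ u ∈ T, x ∉ u.asIdeal) → pv χ' (Ideal.span {x}) = 1 := by
      intro e
      induction e with
      | zero =>
        intro x _ h1
        rw [pow_zero, Ideal.one_eq_top] at h1
        exact absurd Submodule.mem_top h1
      | succ e ih =>
        intro x hx hxe hx1 hxT
        by_cases hxv : x ∈ v.asIdeal
        · have h1 : x * z₀ ∈ Ideal.span {y₀} := by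
            rw [hc]
            exact Ideal.mul_mem_mul hxv hz₀
          obtain ⟨x₂, hx₂⟩ := Ideal.mem_span_singleton.1 h1
          have h2 : x₂ ≠ 0 := by
            rintro rfl
            rw [mul_zero] at hx₂
            exact mul_ne_zero hx hz0 hx₂
          have h3 : x₂ ∉ v.asIdeal ^ e := by
            intro h4
            have h5 : z₀ * x ∈ v.asIdeal ^ (e + 1) := by
              rw [mul_comm, hx₂, pow_succ']
              exact Ideal.mul_mem_mul hyv h4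
            rcases Ideal.IsPrime.mul_mem_pow v.asIdeal h5 with h6 | h6
            · exact hzv h6
            · exact hxe h6
          have h4 : x₂ - 1 ∈ f := by
            have h5 : x₂ - 1 = (x - 1) * z₀ + (z₀ - 1) - (y₀ - 1) * x₂ := by linear_combination (-1 : 𝓞 L) * hx₂
            rw [h5]
            exact Ideal.sub_mem _ (Ideal.add_mem _ (Ideal.mul_mem_right _ _ hx1) (hAf hzA)) (Ideal.mul_mem_right _ _ (hAf hy1))
          have h5 : ∀ u ∈ T, x₂ ∉ u.asIdeal := by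
            intro u hu h6
            have h7 : x * z₀ ∈ u.asIdeal := by
              rw [hx₂]
              exact Ideal.mul_mem_left _ _ h6
            exact (u.isPrime.mem_or_mem h7).elim (hxT u hu) (hA1 z₀ hzA u hu)
          have h6 := ih x₂ h2 h3 h4 h5
          have h7 := pv_sp χ' hx hz0
          rw [hx₂, pv_sp χ' hy0 h2, hy, hz, h6, mul_one, mul_one] at h7
          exact h7.symm
        · rw [hsp x hxv]
          exact h x hx hx1 hxv hxT
    obtain ⟨e, he⟩ := not_mem_powE v hx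
    exact key e x hx he hx1 hxT

/-- The extension to finitely many primes. -/
theorem ext_R (R : Finset (Pl L)) (hfR : ∀ v ∈ R, ¬ f ≤ v.asIdeal) (hn : χ ^ n = 1)
    (h : ∀ x : 𝓞 L, x ≠ 0 → x - 1 ∈ f → (∀ u ∈ R, x ∉ u.asIdeal) → pv χ (Ideal.span {x}) = 1) :
    ∃ χ' : Pl L → ℂˣ, (∀ w ∉ R, χ' w = χ w) ∧ χ' ^ n = 1 ∧ ∀ x : 𝓞 L, x ≠ 0 → x - 1 ∈ f → pv χ' (Ideal.span {x}) = 1 := by
  classical
  induction R using Finset.induction_on generalizing χ with
  | empty => exact ⟨χ, fun w _ => rfl, hn, fun x hx hx1 => h x hx hx1 fun u hu => absurd hu (Finset.notMem_empty u)⟩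
  | insert v T hvT ih =>
    obtain ⟨χ₁, h1, h2, h3⟩ := ext_v T (hfR v (Finset.mem_insert_self v T)) hvT hn fun x hx hx1 hxv hxT =>
      h x hx hx1 fun u hu => by
        rcases Finset.mem_insert.1 hu with rfl | hu
        · exact hxv
        · exact hxT u hu
    obtain ⟨χ₂, h4, h5, h6⟩ := ih (fun u hu => hfR u (Finset.mem_insert_of_mem hu)) h2 h3
    refine ⟨χ₂, fun w hw => ?_, h5, h6⟩
    rw [h4 w fun h7 => hw (Finset.mem_insert_of_mem h7), h1 w fun h7 => hw (h7 ▸ Finset.mem_insert_self v T)]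

end H35AX
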