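import Mathlib
import Pool.Agent.Lib.H35AX.A7
import Pool.Agent.Lib.H41P.D

/-! # H35AX, A8: the auxiliary characters exist -/

open NumberField IsDedekindDomain
open scoped nonZeroDivisors

namespace H35AX

open H55R (Pl pv pv_mul pv_prime pv_pow pv_one_fun pv_mul_fun pv_inv_fun)
open H41S (CH pv_congr)

variable {L : Type} [Field L] [NumberField L] {p n : ℕ} {v : Pl L} {f : Ideal (𝓞 L)} {χ : Pl L → ℂˣ}

/-- The part of f prime to R. -/
theorem split_R (R : Finset (Pl L)) (hf : f ≠ ⊥) : ∃ (h : Ideal (𝓞 L)) (e : ℕ), (∀ v ∈ R, ¬ h ≤ v.asIdeal) ∧ f ≤ h ∧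
    h * ∏ v ∈ R, v.asIdeal ^ e ≤ f := by
  classical
  induction R using Finset.induction_on with
  | empty => exact ⟨f, 0, fun v hv => absurd hv (Finset.notMem_empty v), le_rfl, by rw [Finset.prod_empty, mul_one]⟩
  | insert v T hvT ih =>
    obtain ⟨h, e, h1, h2, h3⟩ := ih
    have h0 : h ≠ 0 := by
      rintro rfl
      exact hf (le_bot_iff.1 h2)
    obtain ⟨m, J, hJ, hJh⟩ := WfDvdMonoid.max_power_factor h0 v.prime.irreducible
    have h4 : h ≤ J := by
      rw [hJh]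
      exact Ideal.mul_le_right
    refine ⟨J, e + m, fun u hu h5 => ?_, h2.trans h4, ?_⟩
    · rcases Finset.mem_insert.1 hu with rfl | hu
      · exact hJ (Ideal.dvd_iff_le.2 h5)
      · exact h1 u hu (h4.trans h5)
    · rw [Finset.prod_insert hvT]
      have h5 : ∏ u ∈ T, u.asIdeal ^ (e + m) ≤ ∏ u ∈ T, u.asIdeal ^ e := by
        refine Finset.prod_le_prod' fun u _ => Ideal.pow_le_pow_right (by omega)
      have h6 : v.asIdeal ^ (e + m) ≤ v.asIdeal ^ m := Ideal.pow_le_pow_right (by omega)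
      refine le_trans (Ideal.mul_mono_right (Ideal.mul_mono h6 h5)) ?_
      rw [← mul_assoc, mul_comm J, ← hJh]
      exact h3

theorem cop_vv {u v : Pl L} (h : u ≠ v) : IsCoprime u.asIdeal v.asIdeal :=
  cop_ne fun h1 => h (HeightOneSpectrum.ext (u.isMaximal.eq_of_le v.isPrime.ne_top h1))

/-- Elements of a product of coprime ideals. -/
theorem mem_D (R : Finset (Pl L)) (E : ℕ) {h : Ideal (𝓞 L)} (hR : ∀ v ∈ R, ¬ h ≤ v.asIdeal) {x : 𝓞 L} (hx : x ∈ h)
    (hxR : ∀ v ∈ R, x ∈ v.asIdeal ^ E) : x ∈ h * ∏ v ∈ R, v.asIdeal ^ E := by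
  classical
  have key : ∀ T : Finset (Pl L), T ⊆ R → x ∈ h * ∏ v ∈ T, v.asIdeal ^ E := by
    intro T
    induction T using Finset.induction_on with
    | empty =>
      intro _
      rw [Finset.prod_empty, mul_one]
      exact hx
    | insert v T hvT ih =>
      intro hT
      have h1 := ih fun u hu => hT (Finset.mem_insert_of_mem hu)
      have hv : v ∈ R := hT (Finset.mem_insert_self v T)
      have h2 : IsCoprime (v.asIdeal ^ E) (h * ∏ u ∈ T, u.asIdeal ^ E) := by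
        refine (IsCoprime.mul_left (cop_ne (hR v hv)) (cop_prod _ _ _ fun u hu => ?_)).symm.pow_left
        have h3 : u ≠ v := fun h3 => hvT (by rwa [h3] at hu)
        exact (cop_vv h3).pow_left
      rw [Finset.prod_insert hvT, mul_left_comm, Ideal.mul_eq_inf_of_isCoprime h2]
      exact ⟨hxR v hv, h1⟩
  exact key R (Finset.Subset.refl R)

/-- Elements with given residues. -/
theorem crt_R (R : Finset (Pl L)) (E : ℕ) {h : Ideal (𝓞 L)} (hR : ∀ v ∈ R, ¬ h ≤ v.asIdeal) :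
    ∃ X : Pl L → 𝓞 L → 𝓞 L, ∀ v ∈ R, ∀ x, X v x - x ∈ v.asIdeal ^ E ∧ X v x - 1 ∈ h ∧ ∀ u ∈ R, u ≠ v → X v x - 1 ∈ u.asIdeal ^ E := by
  classical
  have key : ∀ v : Pl L, ∃ X : 𝓞 L → 𝓞 L, v ∈ R → ∀ x, X x - x ∈ v.asIdeal ^ E ∧ X x - 1 ∈ h ∧ ∀ u ∈ R, u ≠ v → X x - 1 ∈ u.asIdeal ^ E := by
    intro v
    by_cases hv : v ∈ R
    swap
    · exact ⟨fun x => x, fun h => absurd h hv⟩
    have h1 : IsCoprime (v.asIdeal ^ E) (h * ∏ u ∈ R.erase v, u.asIdeal ^ E) := by
      refine (IsCoprime.mul_left (cop_ne (hR v hv)) (cop_prod _ _ _ fun u hu => ?_)).symm.pow_left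
      exact (cop_vv (Finset.ne_of_mem_erase hu)).pow_left
    obtain ⟨a, ha, b, hb, hab⟩ := Ideal.isCoprime_iff_exists.1 h1
    have hbh : b ∈ h := (Ideal.mul_le_left : h * _ ≤ h) hb
    have hbu : ∀ u ∈ R, u ≠ v → b ∈ u.asIdeal ^ E := by
      intro u hu huv
      have h2 : h * ∏ u ∈ R.erase v, u.asIdeal ^ E ≤ u.asIdeal ^ E :=
        Ideal.mul_le_right.trans (Ideal.prod_le_inf.trans (Finset.inf_le (Finset.mem_erase.2 ⟨huv, hu⟩)))
      exact h2 hb
    refine ⟨fun x => x * b + a, fun _ x => ?_⟩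
    have e1 : x * b + a - x = (1 - x) * a := by linear_combination x * hab
    have e2 : x * b + a - 1 = (x - 1) * b := by linear_combination hab
    refine ⟨?_, ?_, fun u hu huv => ?_⟩
    · show x * b + a - x ∈ _
      rw [e1]
      exact Ideal.mul_mem_left _ _ ha
    · show x * b + a - 1 ∈ _
      rw [e2]
      exact Ideal.mul_mem_left _ _ hbh
    · show x * b + a - 1 ∈ _
      rw [e2]
      exact Ideal.mul_mem_left _ _ (hbu u hu huv)
  choose X hX using key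
  exact ⟨X, fun v hv => hX v hv⟩

theorem cop_pr (hf : f ≠ ⊥) {x : 𝓞 L} (h : ∀ w : Pl L, f ≤ w.asIdeal → x ∉ w.asIdeal) : IsCoprime (Ideal.span {x}) f := by
  rw [Ideal.isCoprime_iff_sup_eq]
  by_contra h1
  obtain ⟨M, hM, hle⟩ := Ideal.exists_le_maximal _ h1
  have hM0 : M ≠ ⊥ := by
    rintro rfl
    exact hf (le_bot_iff.1 (le_sup_right.trans hle))
  exact h ⟨M, hM.isPrime, hM0⟩ (le_sup_right.trans hle) ((le_sup_left.trans hle) (Ideal.mem_span_singleton_self x))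

theorem pv_prod_fun {ι : Type*} (R : Finset ι) (ψ : ι → Pl L → ℂˣ) (a : Ideal (𝓞 L)) : pv (∏ v ∈ R, ψ v) a = ∏ v ∈ R, pv (ψ v) a := by
  classical
  induction R using Finset.induction_on with
  | empty => rw [Finset.prod_empty, Finset.prod_empty, pv_one_fun]
  | insert v T hvT ih => rw [Finset.prod_insert hvT, Finset.prod_insert hvT, pv_mul_fun, ih]

theorem pv_prod_el {ι : Type*} (R : Finset ι) (χ : Pl L → ℂˣ) (x : ι → 𝓞 L) (hx : ∀ i ∈ R, x i ≠ 0) :
    pv χ (Ideal.span {∏ i ∈ R, x i}) = ∏ i ∈ R, pv χ (Ideal.span {x i}) := by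
  classical
  induction R using Finset.induction_on with
  | empty => rw [Finset.prod_empty, Finset.prod_empty, Ideal.span_singleton_one, ← Ideal.one_eq_top, H55R.pv_one]
  | insert v T hvT ih =>
    rw [Finset.prod_insert hvT, Finset.prod_insert hvT, pv_sp χ (hx v (Finset.mem_insert_self v T))
      (Finset.prod_ne_zero_iff.2 fun i hi => hx i (Finset.mem_insert_of_mem hi)), ih fun i hi => hx i (Finset.mem_insert_of_mem hi)]

theorem ch_mono {f f' : Ideal (𝓞 L)} (h : CH p n f χ) (hf : f' ≠ ⊥) (hfp : IsCoprime f' (Ideal.span {(p : 𝓞 L)})) (hle : f' ≤ f) :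
    CH p n f' χ := by
  refine ch_of_one hf hfp h.val fun x hx hx1 => one_of_ch h hx (hle hx1)

/-- p does not divide the norm of a prime which does not contain p. -/
theorem p_norm (hp : p.Prime) (hv : (p : 𝓞 L) ∉ v.asIdeal) : Nat.Coprime p (Ideal.absNorm v.asIdeal) := by
  classical
  rw [hp.coprime_iff_not_dvd]
  intro hd
  have hmax : v.asIdeal.IsMaximal := v.isMaximal
  let _ : Field (𝓞 L ⧸ v.asIdeal) := Ideal.Quotient.field _
  have hfin : Finite (𝓞 L ⧸ v.asIdeal) := Ideal.finiteQuotientOfFreeOfNeBot _ v.ne_bot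
  have : Fact p.Prime := ⟨hp⟩
  have hd' : p ∣ Nat.card (𝓞 L ⧸ v.asIdeal) := hd
  obtain ⟨a, ha⟩ := exists_prime_addOrderOf_dvd_card' p hd'
  have h1 : (p : 𝓞 L ⧸ v.asIdeal) * a = 0 := by
    rw [← nsmul_eq_mul, ← ha]
    exact addOrderOf_nsmul_eq_zero a
  rcases mul_eq_zero.1 h1 with h2 | h2
  · apply hv
    rw [← Ideal.Quotient.eq_zero_iff_mem, map_natCast]
    exact h2
  · rw [h2, addOrderOf_zero] at ha
    exact hp.one_lt.ne ha

/-- The powers of an element 1 modulo v. -/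
theorem pow_cong (v : Pl L) {z : 𝓞 L} (hz : z - 1 ∈ v.asIdeal) (j : ℕ) : z ^ (Ideal.absNorm v.asIdeal) ^ j - 1 ∈ v.asIdeal ^ (j + 1) := by
  induction j with
  | zero => simpa using hz
  | succ j ih =>
    obtain ⟨y, hy⟩ : ∃ y, y = z ^ (Ideal.absNorm v.asIdeal) ^ j := ⟨_, rfl⟩
    rw [← hy] at ih
    have e1 : z ^ (Ideal.absNorm v.asIdeal) ^ (j + 1) = y ^ Ideal.absNorm v.asIdeal := by
      rw [hy, ← pow_mul, ← pow_succ]
    rw [e1]
    have hM : ((Ideal.absNorm v.asIdeal : ℕ) : 𝓞 L) ∈ v.asIdeal := Ideal.absNorm_mem v.asIdeal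
    obtain ⟨M, hM'⟩ : ∃ M : ℕ, M = Ideal.absNorm v.asIdeal := ⟨_, rfl⟩
    rw [← hM'] at hM ⊢
    have hy1 : y - 1 ∈ v.asIdeal := Ideal.pow_le_self (by omega) ih
    have h1 : y ^ M - 1 = (y - 1) * ∑ i ∈ Finset.range M, y ^ i := (mul_geom_sum y M).symm
    have h2 : ∑ i ∈ Finset.range M, y ^ i ∈ v.asIdeal := by
      have h3 : ∑ i ∈ Finset.range M, (y ^ i - 1) ∈ v.asIdeal := by
        refine Ideal.sum_mem _ fun i _ => ?_
        rw [← mul_geom_sum]
        exact Ideal.mul_mem_right _ _ hy1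
      have h4 : ∑ i ∈ Finset.range M, y ^ i = ∑ i ∈ Finset.range M, (y ^ i - 1) + (M : 𝓞 L) := by
        rw [Finset.sum_sub_distrib]
        simp
      rw [h4]
      exact Ideal.add_mem _ h3 hM
    rw [h1, pow_succ v.asIdeal (j + 1)]
    exact Ideal.mul_mem_mul ih h2

end H35AX
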