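import Mathlib
import Pool.Agent.Lib.H35AX.A8

/-! # H35AX, A9: THE AUXILIARY CHARACTERS -/

open NumberField IsDedekindDomain
open scoped nonZeroDivisors

namespace H35AX

open H55R (Pl pv pv_mul pv_prime pv_pow pv_one_fun pv_mul_fun pv_inv_fun)
open H41S (CH pv_congr)

variable {L : Type} [Field L] [NumberField L] {p : ℕ} {v : Pl L} {f g h : Ideal (𝓞 L)} {χ : Pl L → ℂˣ} {R : Finset (Pl L)} {E N k : ℕ}
  {X : Pl L → 𝓞 L → 𝓞 L}

theorem nm_of_sub {a b : 𝓞 L} (h : a - b ∈ v.asIdeal) (hb : b ∉ v.asIdeal) : a ∉ v.asIdeal := by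
  intro ha
  apply hb
  have h1 := Ideal.sub_mem _ ha h
  rwa [sub_sub_cancel] at h1

/-- The component at v. -/
theorem loc_kappa (hp : p.Prime) (hE : 1 ≤ E) (hχ : CH p (p ^ N) f χ) (hfD : h * ∏ v ∈ R, v.asIdeal ^ E ≤ f) (hhf : h ≤ g)
    (hfp : ∀ w : Pl L, f ≤ w.asIdeal → h ≤ w.asIdeal ∨ w ∈ R) (hhR : ∀ v ∈ R, ¬ h ≤ v.asIdeal)
    (hord : ∀ x : 𝓞 L, x ≠ 0 → IsCoprime (Ideal.span {x}) f → x - 1 ∈ g → pv χ (Ideal.span {x}) ^ p ^ k = 1)
    (hX : ∀ v ∈ R, ∀ x, X v x - x ∈ v.asIdeal ^ E ∧ X v x - 1 ∈ h ∧ ∀ u ∈ R, u ≠ v → X v x - 1 ∈ u.asIdeal ^ E)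
    (hv : v ∈ R) (hpv : (p : 𝓞 L) ∉ v.asIdeal) : Loc v (p ^ k) fun x => pv χ (Ideal.span {X v x}) := by
  have hE0 : E ≠ 0 := by omega
  -- elements prime to R and 1 modulo h
  have hcop : ∀ x : 𝓞 L, x - 1 ∈ h → (∀ u ∈ R, x ∉ u.asIdeal) → IsCoprime (Ideal.span {x}) f := by
    intro x hx hxR
    refine cop_pr hχ.ne fun w hw hxw => ?_
    rcases hfp w hw with h1 | h1
    · exact nm_of_sub (h1 hx) (one_nm w) hxw
    · exact hxR w h1 hxw
  have hXR : ∀ x, x ∉ v.asIdeal → ∀ u ∈ R, X v x ∉ u.asIdeal := by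
    intro x hx u hu
    by_cases huv : u = v
    · rw [huv]
      exact nm_of_sub (Ideal.pow_le_self hE0 (hX v hv x).1) hx
    · exact nm_of_sub (Ideal.pow_le_self hE0 ((hX v hv x).2.2 u hu huv)) (one_nm u)
  have hX0 : ∀ x, x ∉ v.asIdeal → X v x ≠ 0 := fun x hx h1 => hXR x hx v hv (h1 ▸ Ideal.zero_mem _)
  have hXc : ∀ x, x ∉ v.asIdeal → IsCoprime (Ideal.span {X v x}) f := fun x hx => hcop _ (hX v hv x).2.1 (hXR x hx)
  -- congruence modulo v^E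
  have hcon : ∀ x y : 𝓞 L, x ∉ v.asIdeal → y ≠ 0 → y - x ∈ v.asIdeal ^ E → y - 1 ∈ h → (∀ u ∈ R, u ≠ v → y - 1 ∈ u.asIdeal ^ E) →
      pv χ (Ideal.span {X v x}) = pv χ (Ideal.span {y}) := by
    intro x y hx hy hyx hyh hyu
    refine hχ.per _ _ (hX0 x hx) hy (hXc x hx) (hfD (mem_D R E hhR ?_ fun u hu => ?_))
    · have e1 : X v x - y = (X v x - 1) - (y - 1) := by ring
      rw [e1]
      exact Ideal.sub_mem _ (hX v hv x).2.1 hyh
    · by_cases huv : u = v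
      · subst huv
        have e1 : X u x - y = (X u x - x) - (y - x) := by ring
        rw [e1]
        exact Ideal.sub_mem _ (hX u hu x).1 hyx
      · have e1 : X v x - y = (X v x - 1) - (y - 1) := by ring
        rw [e1]
        exact Ideal.sub_mem _ ((hX v hv x).2.2 u hu huv) (hyu u hu huv)
  have hmul : ∀ x y, x ∉ v.asIdeal → y ∉ v.asIdeal →
      pv χ (Ideal.span {X v (x * y)}) = pv χ (Ideal.span {X v x}) * pv χ (Ideal.span {X v y}) := by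
    intro x y hx hy
    rw [← pv_sp χ (hX0 x hx) (hX0 y hy)]
    have e2 : ∀ I : Ideal (𝓞 L), X v x - 1 ∈ I → X v y - 1 ∈ I → X v x * X v y - 1 ∈ I := by
      intro I h1 h2
      have e3 : X v x * X v y - 1 = (X v x - 1) * X v y + (X v y - 1) := by ring
      rw [e3]
      exact Ideal.add_mem _ (Ideal.mul_mem_right _ _ h1) h2
    refine hcon _ _ (mul_nm hx hy) (mul_ne_zero (hX0 x hx) (hX0 y hy)) ?_ (e2 h (hX v hv x).2.1 (hX v hv y).2.1)
      fun u hu huv => e2 _ ((hX v hv x).2.2 u hu huv) ((hX v hv y).2.2 u hu huv)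
    have e3 : X v x * X v y - x * y = (X v x - x) * X v y + x * (X v y - y) := by ring
    rw [e3]
    exact Ideal.add_mem _ (Ideal.mul_mem_right _ _ (hX v hv x).1) (Ideal.mul_mem_left _ _ (hX v hv y).1)
  have hone : ∀ x : 𝓞 L, x - 1 ∈ v.asIdeal ^ E → pv χ (Ideal.span {X v x}) = 1 := by
    intro x hx
    have hxv : x ∉ v.asIdeal := nm_of_sub (Ideal.pow_le_self hE0 hx) (one_nm v)
    rw [hcon x 1 hxv one_ne_zero (by rw [← neg_mem_iff, neg_sub]; exact hx) (by rw [sub_self]; exact Ideal.zero_mem _)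
      (fun u _ _ => by rw [sub_self]; exact Ideal.zero_mem _), Ideal.span_singleton_one, ← Ideal.one_eq_top, H55R.pv_one]
  have hpow : ∀ x, x ∉ v.asIdeal → pv χ (Ideal.span {X v x}) ^ p ^ k = 1 := fun x hx =>
    hord _ (hX0 x hx) (hXc x hx) (hhf (hX v hv x).2.1)
  have hmulp : ∀ x, x ∉ v.asIdeal → ∀ m : ℕ, pv χ (Ideal.span {X v (x ^ m)}) = pv χ (Ideal.span {X v x}) ^ m := by
    intro x hx m
    induction m with
    | zero =>
      rw [pow_zero, pow_zero]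
      exact hone 1 (by rw [sub_self]; exact Ideal.zero_mem _)
    | succ m ih => rw [pow_succ, pow_succ, hmul _ _ (pow_nm hx m) hx, ih]
  have hv1 : ∀ z : 𝓞 L, z - 1 ∈ v.asIdeal → pv χ (Ideal.span {X v z}) = 1 := by
    intro z hz
    have hzv : z ∉ v.asIdeal := nm_of_sub hz (one_nm v)
    have h1 := pow_cong v hz E
    have h2 : z ^ (Ideal.absNorm v.asIdeal) ^ E - 1 ∈ v.asIdeal ^ E := Ideal.pow_le_pow_right (by omega) h1
    have h3 := hone _ h2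
    rw [hmulp z hzv] at h3
    have h4 := orderOf_dvd_of_pow_eq_one h3
    have h5 := orderOf_dvd_of_pow_eq_one (hpow z hzv)
    have h6 : Nat.Coprime (p ^ k) (Ideal.absNorm v.asIdeal ^ E) := (p_norm hp hpv).pow k E
    have h7 := Nat.eq_one_of_dvd_coprimes h6 h5 h4
    exact orderOf_eq_one_iff.1 h7
  refine ⟨hmul, fun x y hx hxy => ?_, hpow⟩
  have hyv : y ∉ v.asIdeal := nm_of_sub (by rw [← neg_mem_iff, neg_sub]; exact hxy) hx
  obtain ⟨c, hc, hc1⟩ := inv_f (cop_span hyv)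
  have hcv : c ∉ v.asIdeal := fun h1 => nm_of_sub hc1 (one_nm v) (Ideal.mul_mem_left _ _ h1)
  have h1 := hv1 (y * c) hc1
  have h2 := hv1 (x * c) (by
    have e1 : x * c - 1 = (y * c - 1) + (x - y) * c := by ring
    rw [e1]
    exact Ideal.add_mem _ hc1 (Ideal.mul_mem_right _ _ hxy))
  rw [hmul _ _ hyv hcv] at h1
  rw [hmul _ _ hx hcv] at h2
  exact mul_right_cancel (h2.trans h1.symm)

theorem all_fin (hf : f ≠ ⊥) : {w : Pl L | f ≤ w.asIdeal}.Finite := by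
  refine (Ideal.finite_factors hf).subset fun w hw => ?_
  exact Ideal.dvd_iff_le.2 hw

/-- THE AUXILIARY CHARACTERS. -/
theorem aux_all {G : Pl L → Prop} (hp : p.Prime) (hμ : ∀ z : 𝓞 L, z ^ p = 1 → z = 1) (hsep : ∀ k : ℕ, 1 ≤ k → Sep p k G) :
    H41P.AuxAll p L G := by
  classical
  intro R N k f g χ hk hkN hχ hg hgp hfg hgR hRp hord
  obtain ⟨h₀, e, hh1, hh2, hh3⟩ := split_R R hχ.ne
  obtain ⟨E, hE⟩ : ∃ E, E = e + 1 := ⟨_, rfl⟩
  obtain ⟨h, hh⟩ : ∃ h, h = h₀ * g := ⟨_, rfl⟩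
  have hh0 : h₀ ≠ ⊥ := by
    rintro rfl
    exact hχ.ne (le_bot_iff.1 hh2)
  have hhb : h ≠ ⊥ := by
    rw [hh, ← Ideal.zero_eq_bot]
    exact mul_ne_zero hh0 hg
  have hhh : h ≤ h₀ := by
    rw [hh]
    exact Ideal.mul_le_left
  have hhg : h ≤ g := by
    rw [hh]
    exact Ideal.mul_le_right
  have hpr : ∀ w : Pl L, h ≤ w.asIdeal → g ≤ w.asIdeal := by
    intro w hw
    rw [hh] at hw
    rcases (w.isPrime.mul_le).1 hw with h1 | h1
    · rcases hfg w (hh2.trans h1) with h2 | h2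
      · exact h2
      · exact absurd h1 (hh1 w h2)
    · exact h1
  have hhR : ∀ v ∈ R, ¬ h ≤ v.asIdeal := fun v hv h1 => hgR v hv (hpr v h1)
  have hfp : ∀ w : Pl L, f ≤ w.asIdeal → h ≤ w.asIdeal ∨ w ∈ R := by
    intro w hw
    rcases hfg w hw with h1 | h1
    · left
      rw [hh]
      exact Ideal.mul_le_right.trans h1
    · exact Or.inr h1
  have hcop0 : IsCoprime h₀ (Ideal.span {(p : 𝓞 L)}) := by
    rw [Ideal.isCoprime_iff_sup_eq, eq_top_iff, ← Ideal.isCoprime_iff_sup_eq.1 hχ.cop]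
    exact sup_le_sup_right hh2 _
  have hhp : IsCoprime h (Ideal.span {(p : 𝓞 L)}) := by
    rw [hh]
    exact IsCoprime.mul_left hcop0 hgp
  have hfD : h * ∏ v ∈ R, v.asIdeal ^ E ≤ f := by
    refine le_trans (Ideal.mul_mono hhh ?_) hh3
    exact Finset.prod_le_prod' fun u _ => Ideal.pow_le_pow_right (by omega)
  obtain ⟨X, hX⟩ := crt_R R E hhR
  have hloc : ∀ v ∈ R, Loc v (p ^ k) fun x => pv χ (Ideal.span {X v x}) := fun v hv =>
    loc_kappa hp (by omega) hχ hfD hhg hfp hhR hord hX hv (hRp v hv)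
  have hS : ({w : Pl L | h ≤ w.asIdeal} ∪ (R : Set (Pl L))).Finite := (all_fin hhb).union R.finite_toSet
  have haux : ∀ v : Pl L, ∃ (Q : Finset (Pl L)) (ψ : Pl L → ℂˣ), v ∈ R →
      (∀ q ∈ Q, q ∉ ({w : Pl L | h ≤ w.asIdeal} ∪ (R : Set (Pl L))) ∧ G q ∧ q ≠ v ∧ (p : 𝓞 L) ∉ q.asIdeal) ∧
      CH p (p ^ k) (v.asIdeal * ∏ q ∈ Q, q.asIdeal) ψ ∧
      ∀ x : 𝓞 L, x ≠ 0 → x ∉ v.asIdeal → x - 1 ∈ ∏ q ∈ Q, q.asIdeal → pv ψ (Ideal.span {x}) = pv χ (Ideal.span {X v x}) := by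
    intro v
    by_cases hv : v ∈ R
    · obtain ⟨Q, ψ, h1⟩ := aux_char hp hk hμ (hsep k hk) hS (hRp v hv) (hloc v hv)
      exact ⟨Q, ψ, fun _ => h1⟩
    · exact ⟨∅, 1, fun h1 => absurd h1 hv⟩
  choose Q ψ hQ using haux
  obtain ⟨F, hF⟩ : ∃ F : Pl L → Ideal (𝓞 L), F = fun v => ∏ q ∈ Q v, q.asIdeal := ⟨_, rfl⟩
  obtain ⟨f₀, hf₀⟩ : ∃ f₀, f₀ = h * ∏ v ∈ R, F v := ⟨_, rfl⟩
  have hFb : ∀ v ∈ R, F v ≠ ⊥ := by
    intro v hv
    rw [hF, ← Ideal.zero_eq_bot]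
    exact Finset.prod_ne_zero_iff.2 fun q _ => q.ne_bot
  have hFp : ∀ v ∈ R, IsCoprime (F v) (Ideal.span {(p : 𝓞 L)}) := by
    intro v hv
    rw [hF]
    exact cop_prod _ _ _ fun q hq => (cop_span ((hQ v hv).1 q hq).2.2.2).symm
  have hFw : ∀ v ∈ R, ∀ w : Pl L, F v ≤ w.asIdeal → w ∈ Q v := by
    intro v hv w hw
    rw [hF] at hw
    obtain ⟨q, hq, hqw⟩ := (w.isPrime.prod_le).1 hw
    have h1 : q = w := HeightOneSpectrum.ext (q.isMaximal.eq_of_le w.isPrime.ne_top hqw)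
    rwa [← h1]
  have hf₀b : f₀ ≠ ⊥ := by
    rw [hf₀, ← Ideal.zero_eq_bot]
    exact mul_ne_zero hhb (Finset.prod_ne_zero_iff.2 hFb)
  have hf₀p : IsCoprime f₀ (Ideal.span {(p : 𝓞 L)}) := by
    rw [hf₀]
    exact IsCoprime.mul_left hhp (cop_prod _ _ _ hFp)
  have hf₀h : f₀ ≤ h := by
    rw [hf₀]
    exact Ideal.mul_le_left
  have hf₀F : ∀ v ∈ R, f₀ ≤ F v := by
    intro v hv
    rw [hf₀]
    exact Ideal.mul_le_right.trans (Ideal.prod_le_inf.trans (Finset.inf_le hv))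
  have hf₀w : ∀ w : Pl L, f₀ ≤ w.asIdeal → h ≤ w.asIdeal ∨ ∃ v ∈ R, w ∈ Q v := by
    intro w hw
    rw [hf₀] at hw
    rcases (w.isPrime.mul_le).1 hw with h1 | h1
    · exact Or.inl h1
    · obtain ⟨v, hv, hvw⟩ := (w.isPrime.prod_le).1 h1
      exact Or.inr ⟨v, hv, hFw v hv w hvw⟩
  have hf₀R : ∀ v ∈ R, ¬ f₀ ≤ v.asIdeal := by
    intro v hv h1
    rcases hf₀w v h1 with h2 | ⟨u, hu, h2⟩
    · exact hhR v hv h2
    · exact ((hQ u hu).1 v h2).1 (Or.inr hv)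
  have hψCH : ∀ v ∈ R, CH p (p ^ k) (f₀ * v.asIdeal) (ψ v) := by
    intro v hv
    refine ch_mono (hQ v hv).2.1 ?_ (IsCoprime.mul_left hf₀p (cop_span (hRp v hv)).symm) ?_
    · rw [← Ideal.zero_eq_bot]
      exact mul_ne_zero hf₀b v.ne_bot
    · rw [mul_comm]
      refine Ideal.mul_mono_right ?_
      have h1 := hf₀F v hv
      rwa [hF] at h1
  -- the remaining character
  obtain ⟨χ₁, hχ₁⟩ : ∃ χ₁ : Pl L → ℂˣ, χ₁ = χ * (∏ v ∈ R, ψ v)⁻¹ := ⟨_, rfl⟩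
  have hχ₁N : χ₁ ^ p ^ N = 1 := by
    have h1 : ∀ v ∈ R, ψ v ^ p ^ N = 1 := by
      intro v hv
      obtain ⟨c, hc⟩ := pow_dvd_pow p hkN
      rw [hc, pow_mul, (hψCH v hv).val, one_pow]
    rw [hχ₁, mul_pow, hχ.val, one_mul, inv_pow, ← Finset.prod_pow, Finset.prod_eq_one h1, inv_one]
  have hχ₁1 : ∀ x : 𝓞 L, x ≠ 0 → x - 1 ∈ f₀ → (∀ u ∈ R, x ∉ u.asIdeal) → pv χ₁ (Ideal.span {x}) = 1 := by
    intro x hx hx1 hxR
    have hxv : ∀ v ∈ R, pv (ψ v) (Ideal.span {x}) = pv χ (Ideal.span {X v x}) := by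
      intro v hv
      refine (hQ v hv).2.2 x hx (hxR v hv) ?_
      have h1 := hf₀F v hv hx1
      rwa [hF] at h1
    have hXR : ∀ v ∈ R, ∀ u ∈ R, X v x ∉ u.asIdeal := by
      intro v hv u hu
      by_cases huv : u = v
      · subst huv
        exact nm_of_sub (Ideal.pow_le_self (by omega) (hX u hu x).1) (hxR u hu)
      · exact nm_of_sub (Ideal.pow_le_self (by omega) ((hX v hv x).2.2 u hu huv)) (one_nm u)
    have hX0 : ∀ v ∈ R, X v x ≠ 0 := fun v hv h1 => hXR v hv v hv (h1 ▸ Ideal.zero_mem _)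
    have hprod : pv χ (Ideal.span {x}) = ∏ v ∈ R, pv χ (Ideal.span {X v x}) := by
      rw [← pv_prod_el R χ (fun v => X v x) hX0]
      refine hχ.per _ _ hx (Finset.prod_ne_zero_iff.2 hX0) ?_ (hfD (mem_D R E hhR ?_ fun u hu => ?_))
      · refine cop_pr hχ.ne fun w hw hxw => ?_
        rcases hfp w hw with h1 | h1
        · exact nm_of_sub (h1 (hf₀h hx1)) (one_nm w) hxw
        · exact hxR w h1 hxw
      · rw [← Ideal.Quotient.eq, map_prod]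
        rw [Finset.prod_eq_one fun v hv => by
          rw [← map_one (Ideal.Quotient.mk h)]
          exact Ideal.Quotient.eq.2 (hX v hv x).2.1]
        rw [← map_one (Ideal.Quotient.mk h)]
        exact Ideal.Quotient.eq.2 (hf₀h hx1)
      · rw [← Ideal.Quotient.eq, map_prod, Finset.prod_eq_single u (fun v hv hvu => by
          rw [← map_one (Ideal.Quotient.mk (u.asIdeal ^ E))]
          exact Ideal.Quotient.eq.2 ((hX v hv x).2.2 u hu fun h1 => hvu h1.symm)) (fun h1 => absurd hu h1)]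
        refine Ideal.Quotient.eq.2 ?_
        rw [← neg_mem_iff, neg_sub]
        exact (hX u hu x).1
    rw [hχ₁, pv_mul_fun, pv_inv_fun, pv_prod_fun, hprod, Finset.prod_congr rfl hxv, mul_inv_cancel]
  obtain ⟨χ₀, h1, h2, h3⟩ := ext_R R hf₀R hχ₁N hχ₁1
  refine ⟨f₀, χ₀, ψ, fun w hw => ?_, hf₀R, ch_of_one hf₀b hf₀p h2 h3, hψCH, fun w _ hwR => ?_⟩
  · rcases hf₀w w hw with h4 | ⟨v, hv, h4⟩
    · exact Or.inl (hpr w h4)
    · exact Or.inr ((hQ v hv).1 w h4).2.1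
  · rw [h1 w hwR, hχ₁, Pi.mul_apply, Pi.inv_apply, Finset.prod_apply, inv_mul_cancel_right]

end H35AX
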